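import Pool.Agent.X69.Dio.Tot

/-!
Almost prime values of `n ^ 2 + A` for `n` in a Bohr set: the theorem.
-/

set_option autoImplicit false

namespace Pool.Agent.X69.Dio

open Finset Filter
open Pool.Agent.W23.DC
open Pool.Agent.Y882 (PZ exJ tt_lt)
open Pool.Agent.Y882.PX
open Pool.Agent.Y882.KW
open Pool.Agent.Y882.SI
open Pool.Agent.Y882.MG
open Pool.Agent.X69.NSQ

open Classical in
theorem bohr (A : ℤ) (hA : ¬ IsSquare (-A)) (K r : ℕ) (τ ζ υ lam S θ κ : ℝ) (hζ : 0 < ζ)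
    (h2 : 2 * ζ < τ) (h4 : τ ≤ 4 * ζ) (hθ : 0 < θ) (hτ : τ < 1 - θ) (hθτ : 2 * θ < τ) (hζυ : ζ ≤ υ)
    (hυτ : υ < τ) (hlam : 0 < lam)
    (hJ0 : ∫ x in ζ..υ, (lam - lam / υ * x) / (τ - x) / x < Real.log (τ / ζ - 1) / τ)
    (hr : 1 / lam + S / υ ≤ r + 1) (hS : 2 < S) (hκ : 0 < κ) :
    ∃ c δ₀ : ℝ, 0 < c ∧ 0 < δ₀ ∧ ∃ X0 : ℕ, ∀ X : ℕ, X0 ≤ X → ∀ (α β : ℝ) (a : ℤ) (q : ℕ),
      Ap α a q → (X : ℝ) ^ (θ + κ) ≤ q → (q : ℝ) ≤ (X : ℝ) ^ (1 - θ - κ) →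
      ∀ Ω : ℕ → Finset ℕ, (∀ p : ℕ, p.Prime → (Ω p).card ≤ K) →
        c * ((X : ℝ) ^ (1 - θ) * ∏ p ∈ (Icc 1 X).filter Nat.Prime,
            (1 - ((Cl A Ω ((X : ℝ) + 1) p).card : ℝ) / p)) ≤
          ((Good A r Ω ((X : ℝ) ^ δ₀) ((X : ℝ) ^ ζ) (JB X α β ((X : ℝ) ^ (-θ)))).card : ℝ) := by
  have hA0 : A ≠ 0 := by
    rintro rfl
    exact hA ⟨0, by simp⟩
  have hυ0 : 0 < υ := by linarith
  have hυ1 : υ ≤ 1 := by linarith
  obtain ⟨s, hs⟩ : ∃ s : ℝ, s = 1 - θ - τ := ⟨_, rfl⟩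
  have hs0 : 0 < s := by linarith
  obtain ⟨μ, hμ, hμκ, hμs⟩ : ∃ μ : ℝ, 0 < μ ∧ μ ≤ κ ∧ μ ≤ s / 2 :=
    ⟨min κ (s / 2), lt_min hκ (by linarith), min_le_left _ _, min_le_right _ _⟩
  obtain ⟨ν, hν, hνμ, hνζ, hντ⟩ : ∃ ν : ℝ, 0 < ν ∧ ν ≤ μ / 2 ∧ ν ≤ ζ ∧ ν ≤ τ / 2 - θ :=
    ⟨min (μ / 2) (min ζ (τ / 2 - θ)), lt_min (by linarith) (lt_min hζ (by linarith)), min_le_left _ _,
      (min_le_right _ _).trans (min_le_left _ _), (min_le_right _ _).trans (min_le_right _ _)⟩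
  obtain ⟨δ, ε₁, η, hδ, hε₁, hε₁ζ, hη, Y1, HG⟩ := gen A hA (K + 2) r τ ζ υ lam S (τ + s / 4) (ν / 2) hζ h2 h4
    (by linarith) hζυ hυτ hlam hJ0 hr (by linarith) (by linarith)
  obtain ⟨Y2, HM⟩ := mer_quad A hA ε₁ υ η hε₁ hυ1 hη
  obtain ⟨Y4, HT⟩ := tot θ τ κ μ hθ (by linarith) hτ hμ hμκ (by linarith)
  obtain ⟨C, hC1, hC⟩ := pow_card_le (K + 2) (μ / 40) (by linarith)
  have evp : ∀ (B e : ℝ), 0 < e → ∀ᶠ Y : ℕ in atTop, B ≤ (Y : ℝ) ^ e := fun B e he =>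
    ((tendsto_rpow_atTop he).comp tendsto_natCast_atTop_atTop).eventually_ge_atTop _
  obtain ⟨Y3, hY3⟩ := eventually_atTop.1 ((evp (2 * C) (μ / 40) (by linarith)).and
    ((evp 36 (ν / 2) (by linarith)).and
    ((evp ((A.natAbs : ℝ) + 4) ζ hζ).and ((evp (1 + |(A : ℝ)|) (S - 2) (by linarith)).and
    ((evp 2 (τ / 2) (by linarith)).and (eventually_ge_atTop 3))))))
  refine ⟨δ / 2, ε₁, by linarith, hε₁, max Y1 (max Y2 (max Y3 Y4)), ?_⟩
  intro X hX α β a q hAp hq1 hq2 Ω hK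
  have hX1 : Y1 ≤ X := (le_max_left _ _).trans hX
  have hX2 : Y2 ≤ X := ((le_max_left _ _).trans (le_max_right _ _)).trans hX
  have hX34 : max Y3 Y4 ≤ X := ((le_max_right _ _).trans (le_max_right _ _)).trans hX
  obtain ⟨e1, e2, e4, e5, e6, e7⟩ := hY3 X ((le_max_left _ _).trans hX34)
  have HT' := HT X ((le_max_right _ _).trans hX34) α a q hAp hq1 hq2
  have hXr : (3 : ℝ) ≤ X := by exact_mod_cast e7
  have hX0 : (0 : ℝ) < X := by linarith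
  have hX1r : (1 : ℝ) ≤ X := by linarith
  have hpw : ∀ x y : ℝ, x ≤ y → (X : ℝ) ^ x ≤ (X : ℝ) ^ y := fun x y hxy =>
    Real.rpow_le_rpow_of_exponent_le hX1r hxy
  have hXone : (X : ℝ) ^ (1 : ℝ) = X := Real.rpow_one _
  obtain ⟨h, hh⟩ : ∃ h : ℝ, h = 1 - θ := ⟨_, rfl⟩
  rw [← hs, ← hh] at HT'
  rw [← hh]
  obtain ⟨N, hN⟩ : ∃ N : ℕ, N = ⌈(X : ℝ) ^ (1 + θ - τ)⌉₊ := ⟨_, rfl⟩
  obtain ⟨D, hD⟩ : ∃ D : ℕ, D = ⌊(X : ℝ) ^ (τ + s / 4)⌋₊ := ⟨_, rfl⟩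
  obtain ⟨δ₁, hδ₁⟩ : ∃ δ₁ : ℝ, δ₁ = (X : ℝ) ^ (-(θ + s / 2)) := ⟨_, rfl⟩
  rw [← hN, ← hD, ← hδ₁] at HT'
  obtain ⟨Δ, hΔ⟩ : ∃ Δ : ℝ, Δ = (X : ℝ) ^ (-θ) := ⟨_, rfl⟩
  rw [← hΔ]
  have hΔ0 : 0 < Δ := by rw [hΔ]; positivity
  have hΔ1 : Δ ≤ 1 := by
    rw [hΔ]
    exact Real.rpow_le_one_of_one_le_of_nonpos hX1r (by linarith)
  have hδ0 : 0 < δ₁ := by rw [hδ₁]; positivity
  have hδ1 : δ₁ ≤ 1 := by
    rw [hδ₁]
    exact Real.rpow_le_one_of_one_le_of_nonpos hX1r (by linarith)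
  have hN1 : 1 ≤ N := by
    rw [hN]
    exact Nat.one_le_ceil_iff.2 (by positivity)
  have hNδ : 1 ≤ δ₁ ^ 2 * N := by
    have u1 : (X : ℝ) ^ (1 + θ - τ) ≤ N := by
      rw [hN]
      exact Nat.le_ceil _
    calc (1 : ℝ) = (X : ℝ) ^ (-(1 + θ - τ)) * (X : ℝ) ^ (1 + θ - τ) := by
          rw [← Real.rpow_add hX0, neg_add_cancel, Real.rpow_zero]
      _ = δ₁ ^ 2 * (X : ℝ) ^ (1 + θ - τ) := by
          congr 1
          rw [hδ₁, ← Real.rpow_natCast, ← Real.rpow_mul hX0.le]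
          congr 1
          rw [hs]
          push_cast
          ring
      _ ≤ _ := mul_le_mul_of_nonneg_left u1 (by positivity)
  have hD1 : 1 ≤ D := by
    rw [hD]
    apply Nat.le_floor
    rw [Nat.cast_one]
    exact Real.one_le_rpow hX1r (by linarith)
  have hDle : (D : ℝ) ≤ (X : ℝ) ^ (τ + s / 4) := by
    rw [hD]
    exact Nat.floor_le (by positivity)
  have hDXr : (D : ℝ) ≤ X := hDle.trans (by
    calc (X : ℝ) ^ (τ + s / 4) ≤ (X : ℝ) ^ (1 : ℝ) := hpw _ _ (by linarith)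
      _ = X := hXone)
  have hDX : D ≤ X := by exact_mod_cast hDXr
  obtain ⟨SE, hSE⟩ : ∃ SE : ℝ, SE = ∑ d ∈ Icc 1 D,
    (EB X N α δ₁ d + 1 / (d : ℝ) * EB X N α δ₁ 1) := ⟨_, rfl⟩
  rw [← hSE] at HT'
  have hEn : ∀ d : ℕ, 0 ≤ EB X N α δ₁ d + 1 / (d : ℝ) * EB X N α δ₁ 1 := by
    intro d
    have u1 := EB_nonneg X N α δ₁ hδ0.le d
    have u2 := EB_nonneg X N α δ₁ hδ0.le 1
    positivity
  have hSE0 : 0 ≤ SE := by
    rw [hSE]
    exact sum_nonneg fun d _ => hEn d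
  have hSEh : SE ≤ (X : ℝ) ^ (h - ν) := by
    have u1 : (1 : ℝ) ≤ (X : ℝ) ^ (μ / 20) := Real.one_le_rpow hX1r (by linarith)
    calc SE = 1 * SE := (one_mul _).symm
      _ ≤ (X : ℝ) ^ (μ / 20) * SE := mul_le_mul_of_nonneg_right u1 hSE0
      _ ≤ (X : ℝ) ^ (h - μ / 2) := HT'
      _ ≤ _ := hpw _ _ (by linarith)
  have hDelX : Δ * X = (X : ℝ) ^ h := by
    calc Δ * X = (X : ℝ) ^ (-θ) * (X : ℝ) ^ (1 : ℝ) := by rw [hXone, hΔ]
      _ = (X : ℝ) ^ (-θ + 1) := (Real.rpow_add hX0 _ _).symm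
      _ = _ := by rw [hh]; congr 1; ring
  -- the number of elements
  have hJc : (X : ℝ) ^ h / 2 ≤ ((JB X α β Δ).card : ℝ) := by
    have u1 := cnt_class X 1 0 N le_rfl (by omega) (by norm_num) α β Δ δ₁ hΔ0.le hΔ1 hN1 hδ0 hδ1 hNδ
    have u2 : (JB X α β Δ).filter (fun n => n % 1 = 0) = JB X α β Δ := by
      rw [filter_eq_self]
      intro n _
      exact Nat.mod_one n
    rw [u2] at u1
    have u3 : 1 + 2 * (2 * (X : ℝ) / ((1 : ℕ) : ℝ) * δ₁ + ES X N α 1) ≤ SE := by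
      have u4 : EB X N α δ₁ 1 + 1 / ((1 : ℕ) : ℝ) * EB X N α δ₁ 1 ≤ SE := by
        rw [hSE]
        exact single_le_sum (f := fun d : ℕ => EB X N α δ₁ d + 1 / (d : ℝ) * EB X N α δ₁ 1)
          (fun d _ => hEn d) (mem_Icc.2 ⟨le_rfl, hD1⟩)
      have u5 := EB_nonneg X N α δ₁ hδ0.le 1
      have u6 : 0 ≤ 1 / ((1 : ℕ) : ℝ) * EB X N α δ₁ 1 := by positivity
      unfold EB at u4 u5 u6
      linarith
    have u4 := (abs_le.1 u1).1
    have u5 : Δ * ((X : ℝ) / ((1 : ℕ) : ℝ)) = (X : ℝ) ^ h := by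
      rw [Nat.cast_one, div_one, hDelX]
    rw [u5] at u4
    have u6 : SE ≤ (X : ℝ) ^ h / 2 := by
      have u7 : (X : ℝ) ^ (h - ν) * (X : ℝ) ^ (ν / 2) ≤ (X : ℝ) ^ h := by
        rw [← Real.rpow_add hX0]
        exact hpw _ _ (by linarith)
      have u8 : (X : ℝ) ^ (h - ν) * 36 ≤ (X : ℝ) ^ (h - ν) * (X : ℝ) ^ (ν / 2) :=
        mul_le_mul_of_nonneg_left e2 (by positivity)
      have u9 : (0 : ℝ) < (X : ℝ) ^ (h - ν) := by positivity
      linarith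
    linarith
  have hJp : (0 : ℝ) < (JB X α β Δ).card := lt_of_lt_of_le (by positivity) hJc
  have hJlow : 18 * (X : ℝ) ^ (h - ν) ≤ (JB X α β Δ).card * (X : ℝ) ^ (-(ν / 2)) := by
    have u1 : (X : ℝ) ^ h / 2 * (X : ℝ) ^ (-(ν / 2)) ≤ (JB X α β Δ).card * (X : ℝ) ^ (-(ν / 2)) :=
      mul_le_mul_of_nonneg_right hJc (by positivity)
    refine le_trans ?_ u1
    have u2 : (X : ℝ) ^ h / 2 * (X : ℝ) ^ (-(ν / 2)) = (X : ℝ) ^ (ν / 2) * (X : ℝ) ^ (h - ν) / 2 := by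
      rw [div_mul_eq_mul_div, ← Real.rpow_add hX0, ← Real.rpow_add hX0]
      congr 2
      ring
    rw [u2]
    have u3 : 36 * (X : ℝ) ^ (h - ν) ≤ (X : ℝ) ^ (ν / 2) * (X : ℝ) ^ (h - ν) :=
      mul_le_mul_of_nonneg_right e2 (by positivity)
    linarith
  obtain ⟨w, hw⟩ : ∃ w : ℝ, w = (X : ℝ) ^ ε₁ := ⟨_, rfl⟩
  have hwX : w ≤ (X : ℝ) + 1 := by
    rw [hw]
    calc (X : ℝ) ^ ε₁ ≤ (X : ℝ) ^ (1 : ℝ) := hpw _ _ (by linarith)
      _ = X := hXone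
      _ ≤ _ := by linarith
  -- the Mertens condition
  have hmer : Mer (pr X ε₁ υ) (tt X) (fun p => ((Cl A Ω w p).card : ℝ) / p) ε₁ υ η := by
    intro x y hx hxy hy
    have h1 := HM X hX2 x y hx hxy hy
    have h3 : ∑ p ∈ (pr X ε₁ υ).filter (fun p => x ≤ tt X p ∧ tt X p < y), ((Cl A Ω w p).card : ℝ) / p =
        ∑ p ∈ (pr X ε₁ υ).filter (fun p => x ≤ tt X p ∧ tt X p < y), (ro (QF A) 0 p : ℝ) / p := by
      apply sum_congr rfl
      intro p hp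
      rw [mem_filter] at hp
      obtain ⟨u1, u2, u3⟩ := pr_mem X p ε₁ υ (by omega) hp.1
      rw [Cl_large A Ω w p (not_lt.2 (by rw [hw]; exact u2))]
    show |∑ p ∈ (pr X ε₁ υ).filter (fun p => x ≤ tt X p ∧ tt X p < y), ((Cl A Ω w p).card : ℝ) / p -
      Real.log (y / x)| ≤ η
    rw [h3]
    exact h1
  have hPZ : ∀ w : ℝ, ∀ p ∈ PZ X w, p.Prime := by
    intro w p hp
    unfold PZ at hp
    rw [mem_filter, mem_Icc] at hp
    exact hp.2.1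
  have key := HG X hX1 (JB X α β Δ) Ω (fun p => (Cl A Ω w p).card)
    (fun p hp => Cl_card_le A Ω w K p hp (hK p hp)) (fun p _ => Cl_le_self A Ω w p) hmer (by
    refine le_trans ?_ hJlow
    rw [← hw]
    set PT := (PZ X υ).powerset.filter
      (fun T : Finset ℕ => ((∏ p ∈ T, p : ℕ) : ℝ) ≤ (X : ℝ) ^ (τ + s / 4)) with hPT
    have hmemT : ∀ T ∈ PT, (∀ p ∈ T, p.Prime) ∧ 1 ≤ ∏ p ∈ T, p ∧ ∏ p ∈ T, p ≤ D := by
      intro T hT
      rw [hPT, mem_filter, mem_powerset] at hT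
      have hTp : ∀ p ∈ T, p.Prime := fun p hp => hPZ υ p (hT.1 hp)
      refine ⟨hTp, Finset.prod_pos fun p hp => (hTp p hp).pos, ?_⟩
      rw [hD]
      exact Nat.le_floor hT.2
    have hinj : Set.InjOn (fun T : Finset ℕ => ∏ p ∈ T, p) (PT : Set (Finset ℕ)) := by
      intro T hT T' hT' he
      have u1 := Nat.primeFactors_prod (hmemT T hT).1
      have u2 := Nat.primeFactors_prod (hmemT T' hT').1
      rw [← u1, ← u2]
      exact congrArg Nat.primeFactors he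
    calc ∑ T ∈ PT, |Err A Ω w (JB X α β Δ) (fun p => (Cl A Ω w p).card) T| ≤
        ∑ T ∈ PT, (X : ℝ) ^ (μ / 20) * (EB X N α δ₁ (∏ p ∈ T, p) +
          1 / ((∏ p ∈ T, p : ℕ) : ℝ) * EB X N α δ₁ 1) := by
          apply sum_le_sum
          intro T hT
          obtain ⟨hTp, hT1, hTD⟩ := hmemT T hT
          refine (err_bohr A Ω w K X N α β Δ δ₁ hΔ0.le hΔ1 hN1 hδ0 hδ1 hNδ (by omega) T hTp
            (hTD.trans hDX) hK).trans ?_
          apply mul_le_mul_of_nonneg_right _ (hEn _)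
          refine (hC T hTp).trans ?_
          have u1 : ((∏ p ∈ T, p : ℕ) : ℝ) ^ (μ / 40) ≤ (X : ℝ) ^ (μ / 40) := by
            apply Real.rpow_le_rpow (by positivity) _ (by linarith)
            exact le_trans (by exact_mod_cast hTD) hDXr
          calc C * ((∏ p ∈ T, p : ℕ) : ℝ) ^ (μ / 40) ≤ (X : ℝ) ^ (μ / 40) * (X : ℝ) ^ (μ / 40) := by
                apply mul_le_mul (by linarith) u1 (by positivity) (by positivity)
            _ = _ := by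
                rw [← Real.rpow_add hX0]
                congr 1
                ring
      _ = (X : ℝ) ^ (μ / 20) * ∑ m ∈ PT.image (fun T : Finset ℕ => ∏ p ∈ T, p),
          (EB X N α δ₁ m + 1 / (m : ℝ) * EB X N α δ₁ 1) := by
          rw [sum_image hinj, mul_sum]
      _ ≤ (X : ℝ) ^ (μ / 20) * SE := by
          apply mul_le_mul_of_nonneg_left _ (by positivity)
          rw [hSE]
          apply sum_le_sum_of_subset_of_nonneg
          · intro m hm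
            rw [mem_image] at hm
            obtain ⟨T, hT, rfl⟩ := hm
            exact mem_Icc.2 (hmemT T hT).2
          · intro d _ _
            exact hEn d
      _ ≤ (X : ℝ) ^ (h - μ / 2) := HT'
      _ ≤ (X : ℝ) ^ (h - ν) := hpw _ _ (by linarith)
      _ ≤ 18 * (X : ℝ) ^ (h - ν) := by
          have : (0 : ℝ) < (X : ℝ) ^ (h - ν) := by positivity
          linarith) (by
    refine le_trans ?_ hJlow
    have hprm : ∀ q ∈ pr X ζ υ, q.Prime ∧ (X : ℝ) ^ ζ ≤ q ∧ (q : ℝ) ≤ (X : ℝ) ^ υ := by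
      intro q hq
      obtain ⟨u1, u2, u3⟩ := pr_mem X q ζ υ (by omega) hq
      exact ⟨u1, u2, u3.le⟩
    have hbig : ∀ s ∈ pr X ζ υ, A.natAbs < s ∧ 2 < s := by
      intro s hs
      have u1 : (A.natAbs : ℝ) + 4 ≤ s := e4.trans (hprm s hs).2.1
      have u2 : A.natAbs + 4 ≤ s := by exact_mod_cast u1
      omega
    set P1 := (pr X ζ υ).filter (fun s : ℕ => (s : ℝ) < (X : ℝ) ^ (τ / 2)) with hP1
    set P2 := (pr X ζ υ).filter (fun s : ℕ => (X : ℝ) ^ (τ / 2) ≤ (s : ℝ)) with hP2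
    have hsub : (JB X α β Δ).filter (fun n : ℕ => ∃ s ∈ pr X ζ υ, ((s ^ 2 : ℕ) : ℤ) ∣ (n : ℤ) ^ 2 + A) ⊆
        P1.biUnion (fun s => (JB X α β Δ).filter (fun n : ℕ => ((s ^ 2 : ℕ) : ℤ) ∣ (n : ℤ) ^ 2 + A)) ∪
        P2.biUnion (fun s => (Icc 1 X).filter
          (fun j : ℕ => ((s ^ 2 : ℕ) : ℤ) ∣ ((0 + 1 * j : ℕ) : ℤ) ^ 2 + A)) := by
      intro n hn
      rw [mem_filter] at hn
      obtain ⟨hn1, s, hs, hsn⟩ := hn
      rw [mem_union, mem_biUnion, mem_biUnion]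
      rcases lt_or_ge (s : ℝ) ((X : ℝ) ^ (τ / 2)) with hlt | hge
      · left
        exact ⟨s, mem_filter.2 ⟨hs, hlt⟩, mem_filter.2 ⟨hn1, hsn⟩⟩
      · right
        refine ⟨s, mem_filter.2 ⟨hs, hge⟩, mem_filter.2 ⟨?_, ?_⟩⟩
        · unfold JB at hn1
          exact (mem_filter.1 hn1).1
        · rw [zero_add, one_mul]
          exact hsn
    have hP1c : (P1.card : ℝ) ≤ (X : ℝ) ^ (τ / 2) := by
      apply card_lt _ _ (by positivity)
      intro s hs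
      rw [hP1, mem_filter] at hs
      exact ⟨(hprm s hs.1).1.one_le, hs.2.le⟩
    have hP2c : (P2.card : ℝ) ≤ (X : ℝ) ^ υ := by
      apply card_lt _ _ (by positivity)
      intro s hs
      rw [hP2, mem_filter] at hs
      exact ⟨(hprm s hs.1).1.one_le, (hprm s hs.1).2.2⟩
    have ht1 : ∑ s ∈ P1, 1 / (s : ℝ) ^ 2 ≤ 2 / (X : ℝ) ^ ζ := by
      apply tail_sq _ _ (by
        have : (4 : ℝ) ≤ (A.natAbs : ℝ) + 4 := by
          have := (Nat.cast_nonneg A.natAbs : (0 : ℝ) ≤ _)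
          linarith
        linarith)
      intro s hs
      rw [hP1, mem_filter] at hs
      exact (hprm s hs.1).2.1
    have ht2 : ∑ s ∈ P2, 1 / (s : ℝ) ^ 2 ≤ 2 / (X : ℝ) ^ (τ / 2) := by
      apply tail_sq _ _ e6
      intro s hs
      rw [hP2, mem_filter] at hs
      exact hs.2
    have hsq1 : ∀ s ∈ P1, 1 ≤ s ^ 2 ∧ s ^ 2 ≤ D := by
      intro s hs
      rw [hP1, mem_filter] at hs
      refine ⟨Nat.pow_pos (hprm s hs.1).1.pos, ?_⟩
      rw [hD]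
      apply Nat.le_floor
      have u1 : ((s ^ 2 : ℕ) : ℝ) ≤ ((X : ℝ) ^ (τ / 2)) ^ 2 := by
        push_cast
        exact pow_le_pow_left₀ (Nat.cast_nonneg _) hs.2.le 2
      refine u1.trans ?_
      rw [← Real.rpow_natCast, ← Real.rpow_mul hX0.le]
      apply hpw
      push_cast
      linarith
    have hE1 : ∑ s ∈ P1, EB X N α δ₁ (s ^ 2) ≤ SE := by
      have hinj : Set.InjOn (fun s : ℕ => s ^ 2) (P1 : Set ℕ) := by
        intro x _ y _ hxy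
        exact Nat.pow_left_injective (by norm_num) hxy
      calc ∑ s ∈ P1, EB X N α δ₁ (s ^ 2) = ∑ m ∈ P1.image (fun s : ℕ => s ^ 2), EB X N α δ₁ m := by
            rw [sum_image hinj]
        _ ≤ ∑ m ∈ P1.image (fun s : ℕ => s ^ 2), (EB X N α δ₁ m + 1 / (m : ℝ) * EB X N α δ₁ 1) := by
            apply sum_le_sum
            intro m _
            have := EB_nonneg X N α δ₁ hδ0.le 1
            have : 0 ≤ 1 / (m : ℝ) * EB X N α δ₁ 1 := by positivity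
            linarith
        _ ≤ SE := by
            rw [hSE]
            apply sum_le_sum_of_subset_of_nonneg
            · intro m hm
              rw [mem_image] at hm
              obtain ⟨s, hs, rfl⟩ := hm
              exact mem_Icc.2 (hsq1 s hs)
            · intro d _ _
              exact hEn d
    have hc1 : (((P1.biUnion (fun s => (JB X α β Δ).filter
        (fun n : ℕ => ((s ^ 2 : ℕ) : ℤ) ∣ (n : ℤ) ^ 2 + A))).card : ℕ) : ℝ) ≤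
        4 * (Δ * X * (2 / (X : ℝ) ^ ζ) + SE) := by
      calc (((P1.biUnion (fun s => (JB X α β Δ).filter
          (fun n : ℕ => ((s ^ 2 : ℕ) : ℤ) ∣ (n : ℤ) ^ 2 + A))).card : ℕ) : ℝ) ≤
          ((∑ s ∈ P1, ((JB X α β Δ).filter
            (fun n : ℕ => ((s ^ 2 : ℕ) : ℤ) ∣ (n : ℤ) ^ 2 + A)).card : ℕ) : ℝ) := by
            exact_mod_cast card_biUnion_le
        _ ≤ ∑ s ∈ P1, (4 : ℝ) * (Δ * (X * (1 / (s : ℝ) ^ 2)) + EB X N α δ₁ (s ^ 2)) := by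
            rw [Nat.cast_sum]
            apply sum_le_sum
            intro s hs
            have v1 := hsq1 s hs
            have v2 := (mem_filter.1 hs).1
            have v3 := hbig s v2
            exact sq_bohr A hA0 X N α β Δ δ₁ hΔ0.le hΔ1 hN1 hδ0 hδ1 hNδ s (hprm s v2).1 v3.1 v3.2
              (v1.2.trans hDX)
        _ = 4 * (Δ * X * (∑ s ∈ P1, 1 / (s : ℝ) ^ 2) + ∑ s ∈ P1, EB X N α δ₁ (s ^ 2)) := by
            rw [← mul_sum, sum_add_distrib, ← mul_sum, ← mul_sum, mul_assoc]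
        _ ≤ _ := by gcongr
    have hc2 : (((P2.biUnion (fun s => (Icc 1 X).filter
          (fun j : ℕ => ((s ^ 2 : ℕ) : ℤ) ∣ ((0 + 1 * j : ℕ) : ℤ) ^ 2 + A))).card : ℕ) : ℝ) ≤
        2 * (X * (2 / (X : ℝ) ^ (τ / 2)) + (X : ℝ) ^ υ) := by
      calc (((P2.biUnion (fun s => (Icc 1 X).filter
          (fun j : ℕ => ((s ^ 2 : ℕ) : ℤ) ∣ ((0 + 1 * j : ℕ) : ℤ) ^ 2 + A))).card : ℕ) : ℝ) ≤
          ((∑ s ∈ P2, ((Icc 1 X).filter
          (fun j : ℕ => ((s ^ 2 : ℕ) : ℤ) ∣ ((0 + 1 * j : ℕ) : ℤ) ^ 2 + A)).card : ℕ) : ℝ) := by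
            exact_mod_cast card_biUnion_le
        _ ≤ ∑ s ∈ P2, (2 : ℝ) * (X * (1 / (s : ℝ) ^ 2) + 1) := by
            rw [Nat.cast_sum]
            apply sum_le_sum
            intro s hs
            have v2 := (mem_filter.1 hs).1
            have v3 := hbig s v2
            exact sq_ap A hA0 s (hprm s v2).1 v3.1 v3.2 0 1 X (fun h => absurd h (by
              intro h
              exact (hprm s v2).1.one_lt.ne' (Nat.dvd_one.1 h)))
        _ = 2 * (X * (∑ s ∈ P2, 1 / (s : ℝ) ^ 2) + P2.card) := by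
            rw [← mul_sum, sum_add_distrib, ← mul_sum, sum_const, nsmul_eq_mul, mul_one]
        _ ≤ _ := by gcongr
    calc (((JB X α β Δ).filter (fun n : ℕ => ∃ q ∈ pr X ζ υ, ((q ^ 2 : ℕ) : ℤ) ∣ (n : ℤ) ^ 2 + A)).card : ℝ) ≤
        4 * (Δ * X * (2 / (X : ℝ) ^ ζ) + SE) + 2 * (X * (2 / (X : ℝ) ^ (τ / 2)) + (X : ℝ) ^ υ) := by
          refine le_trans ?_ (add_le_add hc1 hc2)
          exact_mod_cast (card_le_card hsub).trans (card_union_le _ _)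
      _ ≤ 18 * (X : ℝ) ^ (h - ν) := by
          have v1 : Δ * X * (2 / (X : ℝ) ^ ζ) ≤ 2 * (X : ℝ) ^ (h - ν) := by
            rw [hDelX, mul_div_assoc', mul_comm ((X : ℝ) ^ h) 2, mul_div_assoc, ← Real.rpow_sub hX0]
            exact mul_le_mul_of_nonneg_left (hpw _ _ (by linarith)) (by norm_num)
          have v2 : (X : ℝ) * (2 / (X : ℝ) ^ (τ / 2)) ≤ 2 * (X : ℝ) ^ (h - ν) := by
            have v3 : (X : ℝ) * (2 / (X : ℝ) ^ (τ / 2)) = 2 * (X : ℝ) ^ (1 - τ / 2) := by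
              rw [Real.rpow_sub hX0, hXone]
              ring
            rw [v3]
            exact mul_le_mul_of_nonneg_left (hpw _ _ (by linarith)) (by norm_num)
          have v4 : (X : ℝ) ^ υ ≤ (X : ℝ) ^ (h - ν) := hpw _ _ (by linarith)
          linarith) (by
    intro n hn
    unfold JB at hn
    rw [mem_filter, mem_Icc] at hn
    have u1 : (((n : ℤ) ^ 2 + A).natAbs : ℝ) = |(n : ℝ) ^ 2 + A| := by
      rw [Nat.cast_natAbs]
      push_cast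
      rfl
    rw [u1]
    have u2 : (n : ℝ) ≤ X := by exact_mod_cast hn.1.2
    have u3 : (n : ℝ) ^ 2 ≤ (X : ℝ) ^ 2 := pow_le_pow_left₀ (Nat.cast_nonneg _) u2 2
    have u4 : (1 : ℝ) ≤ (X : ℝ) ^ 2 := by nlinarith
    have u5 := abs_nonneg (A : ℝ)
    calc |(n : ℝ) ^ 2 + A| ≤ |(n : ℝ) ^ 2| + |(A : ℝ)| := abs_add_le _ _
      _ = (n : ℝ) ^ 2 + |(A : ℝ)| := by rw [abs_of_nonneg (by positivity)]
      _ ≤ (1 + |(A : ℝ)|) * (X : ℝ) ^ 2 := by nlinarith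
      _ ≤ (X : ℝ) ^ (S - 2) * (X : ℝ) ^ 2 := mul_le_mul_of_nonneg_right e5 (by positivity)
      _ = (X : ℝ) ^ S := by
          rw [← Real.rpow_natCast (X : ℝ) 2, ← Real.rpow_add hX0]
          congr 1
          push_cast
          ring)
  refine le_trans ?_ key
  -- comparison of the products
  have hnn : ∀ p : ℕ, p.Prime → ∀ w' : ℝ, 0 ≤ 1 - ((Cl A Ω w' p).card : ℝ) / p := by
    intro p hp w'
    have hp0 : (0 : ℝ) < p := by exact_mod_cast hp.pos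
    rw [sub_nonneg, div_le_one hp0]
    exact_mod_cast Cl_le_self A Ω w' p
  have hcomp : ∏ p ∈ (Icc 1 X).filter Nat.Prime, (1 - ((Cl A Ω ((X : ℝ) + 1) p).card : ℝ) / p) ≤
      ∏ p ∈ (Icc 1 X).filter Nat.Prime, (1 - ((Cl A Ω w p).card : ℝ) / p) := by
    apply Finset.prod_le_prod
    · intro p hp
      exact hnn p (mem_filter.1 hp).2 _
    · intro p hp
      have hp0 : (0 : ℝ) < p := by exact_mod_cast (mem_filter.1 hp).2.pos
      have h10 : ((Cl A Ω w p).card : ℝ) ≤ ((Cl A Ω ((X : ℝ) + 1) p).card : ℝ) := by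
        exact_mod_cast card_le_card (Cl_mono A Ω w _ hwX p)
      have h11 := div_le_div_of_nonneg_right h10 hp0.le
      linarith
  have hV0 : 0 ≤ ∏ p ∈ (Icc 1 X).filter Nat.Prime, (1 - ((Cl A Ω ((X : ℝ) + 1) p).card : ℝ) / p) :=
    prod_nonneg fun p hp => hnn p (mem_filter.1 hp).2 _
  calc δ / 2 * ((X : ℝ) ^ h * ∏ p ∈ (Icc 1 X).filter Nat.Prime,
        (1 - ((Cl A Ω ((X : ℝ) + 1) p).card : ℝ) / p)) =
      δ * ((X : ℝ) ^ h / 2 * ∏ p ∈ (Icc 1 X).filter Nat.Prime,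
        (1 - ((Cl A Ω ((X : ℝ) + 1) p).card : ℝ) / p)) := by ring
    _ ≤ δ * ((JB X α β Δ).card * ∏ p ∈ (Icc 1 X).filter Nat.Prime,
        (1 - ((Cl A Ω w p).card : ℝ) / p)) := by
        apply mul_le_mul_of_nonneg_left _ hδ.le
        exact mul_le_mul hJc hcomp hV0 hJp.le

end Pool.Agent.X69.Dio
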