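import Pool.Agent.X69.Dio.Vin
import Pool.Agent.Helper112.Arith

/-!
Integers in a residue class and in a Bohr set; the sum of the error terms.
-/

set_option autoImplicit false

namespace Pool.Agent.X69.Dio

open Finset Filter
open Pool.Agent.Y93.VK (ee ee_add norm_ee ee_zero ee_neg ee_eq ee_dz)
open Pool.Agent.Y957.VK (dz)
open Pool.Agent.X121.AB

/-- the integers `n ≤ X` with `{α n + β} < Δ` -/
noncomputable def JB (X : ℕ) (α β Δ : ℝ) : Finset ℕ :=
  (Icc 1 X).filter (fun n : ℕ => Int.fract (α * n + β) < Δ)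

/-- the error term -/
noncomputable def ES (X N : ℕ) (α : ℝ) (d : ℕ) : ℝ :=
  ∑ n ∈ Icc 1 N, 1 / (n : ℝ) * GG (2 * X / d) (((n * d : ℕ) : ℝ) * α)

lemma ES_nonneg (X N : ℕ) (α : ℝ) (d : ℕ) : 0 ≤ ES X N α d := by
  unfold ES
  apply sum_nonneg
  intro n _
  have := GG_nonneg (2 * X / d) (((n * d : ℕ) : ℝ) * α) (by positivity)
  positivity

/-- the first element of the class -/
def c0 (d c : ℕ) : ℕ := if c = 0 then d else c

lemma c0_prop (d c : ℕ) (hd : 1 ≤ d) (hc : c < d) : 1 ≤ c0 d c ∧ c0 d c ≤ d ∧ c0 d c % d = c := by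
  unfold c0
  split_ifs with h
  · subst h
    exact ⟨hd, le_rfl, Nat.mod_self d⟩
  · exact ⟨Nat.one_le_iff_ne_zero.2 h, hc.le, Nat.mod_eq_of_lt hc⟩

lemma class_eq (X d c : ℕ) (hd : 1 ≤ d) (hdX : d ≤ X) (hc : c < d) :
    (Icc 1 X).filter (fun n => n % d = c) =
      (range ((X - c0 d c) / d + 1)).image (fun k => c0 d c + d * k) := by
  obtain ⟨h1, h2, h3⟩ := c0_prop d c hd hc
  ext n
  rw [mem_filter, mem_Icc, mem_image]
  constructor
  · rintro ⟨⟨hn1, hnX⟩, hnc⟩
    have h4 : c0 d c ≤ n := by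
      unfold c0
      split_ifs with h
      · rw [h] at hnc
        exact Nat.le_of_dvd hn1 (Nat.dvd_of_mod_eq_zero hnc)
      · rw [← hnc]
        exact Nat.mod_le n d
    have h5 : d ∣ n - c0 d c := (Nat.modEq_iff_dvd' h4).1 (by
      unfold Nat.ModEq
      rw [h3, hnc])
    obtain ⟨k, hk⟩ := h5
    refine ⟨k, ?_, by omega⟩
    rw [mem_range]
    have h6 : d * k ≤ X - c0 d c := by omega
    have h7 : k ≤ (X - c0 d c) / d := (Nat.le_div_iff_mul_le (by omega)).2 (by rwa [mul_comm])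
    omega
  · rintro ⟨k, hk, rfl⟩
    rw [mem_range] at hk
    have h7 : k ≤ (X - c0 d c) / d := by omega
    have h8 : d * k ≤ X - c0 d c := by
      have := (Nat.le_div_iff_mul_le (by omega : 0 < d)).1 h7
      rwa [mul_comm] at this
    refine ⟨⟨by omega, by omega⟩, ?_⟩
    rw [Nat.add_mul_mod_self_left, h3]

theorem cnt_class (X d c N : ℕ) (hd : 1 ≤ d) (hdX : d ≤ X) (hc : c < d) (α β Δ δ : ℝ) (hΔ0 : 0 ≤ Δ)
    (hΔ1 : Δ ≤ 1) (hN : 1 ≤ N) (hδ0 : 0 < δ) (hδ1 : δ ≤ 1) (hNδ : 1 ≤ δ ^ 2 * N) :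
    |(((JB X α β Δ).filter (fun n => n % d = c)).card : ℝ) - Δ * (X / d)| ≤
      1 + 2 * (2 * X / d * δ + ES X N α d) := by
  obtain ⟨h1, h2, h3⟩ := c0_prop d c hd hc
  have hdr : (0 : ℝ) < d := by exact_mod_cast hd
  have hXd : (d : ℝ) ≤ X := by exact_mod_cast hdX
  obtain ⟨K, hK⟩ : ∃ K : ℕ, K = (X - c0 d c) / d + 1 := ⟨_, rfl⟩
  have hK1 : (K : ℝ) ≤ X / d + 1 := by
    rw [hK]
    push_cast
    have h4 : (((X - c0 d c) / d : ℕ) : ℝ) ≤ ((X - c0 d c : ℕ) : ℝ) / d := Nat.cast_div_le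
    have h5 : ((X - c0 d c : ℕ) : ℝ) / d ≤ X / d := by
      apply div_le_div_of_nonneg_right _ hdr.le
      exact_mod_cast Nat.sub_le _ _
    linarith
  have hK2 : (X : ℝ) / d - 1 ≤ K := by
    have h4 : X - c0 d c < d * K := by
      rw [hK]
      exact Nat.lt_mul_div_succ _ (by omega)
    have h5 : X ≤ d * K + d := by omega
    have h6 : (X : ℝ) ≤ d * K + d := by exact_mod_cast h5
    rw [sub_le_iff_le_add, div_le_iff₀ hdr]
    linarith
  have hK3 : (K : ℝ) ≤ 2 * X / d := by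
    refine hK1.trans ?_
    have h4 : 1 ≤ (X : ℝ) / d := by rwa [one_le_div hdr]
    have h5 : 2 * (X : ℝ) / d = X / d + X / d := by ring
    linarith
  obtain ⟨y, hy⟩ : ∃ y : ℕ → ℝ, y = fun k => α * ((c0 d c + d * k : ℕ) : ℝ) + β := ⟨_, rfl⟩
  have hcard : ((JB X α β Δ).filter (fun n => n % d = c)).card =
      ((range K).filter (fun k => Int.fract (y k) < Δ)).card := by
    have e1 : (JB X α β Δ).filter (fun n => n % d = c) =
        ((Icc 1 X).filter (fun n => n % d = c)).filter (fun n : ℕ => Int.fract (α * n + β) < Δ) := by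
      unfold JB
      rw [filter_filter, filter_filter]
      apply filter_congr
      intro n _
      exact and_comm
    rw [e1, class_eq X d c hd hdX hc, filter_image, card_image_of_injective, hK, hy]
    intro x z h
    have h' : c0 d c + d * x = c0 d c + d * z := h
    have h'' : d * x = d * z := by omega
    exact Nat.eq_of_mul_eq_mul_left (by omega) h''
  have hsum : (((JB X α β Δ).filter (fun n => n % d = c)).card : ℝ) =
      Δ * K + (∑ k ∈ range K, saw (y k - Δ) - ∑ k ∈ range K, saw (y k - 0)) := by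
    rw [hcard, card_filter]
    push_cast
    have e2 : ∀ k ∈ range K, (if Int.fract (y k) < Δ then (1 : ℝ) else 0) =
        Δ + (saw (y k - Δ) - saw (y k - 0)) := by
      intro k _
      have h4 := ind_eq (u := 0) (v := Δ) le_rfl hΔ0 hΔ1 (y k)
      rw [sub_zero] at h4
      rw [← h4]
      have h5 := Int.fract_nonneg (y k)
      by_cases h6 : Int.fract (y k) < Δ
      · rw [if_pos h6, if_pos ⟨h5, h6⟩]
      · rw [if_neg h6, if_neg (fun h => h6 h.2)]
    rw [sum_congr rfl e2, sum_add_distrib, sum_const, nsmul_eq_mul, card_range, sum_sub_distrib]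
    ring
  have hsaw : ∀ x : ℝ, |∑ k ∈ range K, saw (y k - x)| ≤ 2 * X / d * δ + ES X N α d := by
    intro x
    refine (saw_sum' (range K) y hN hδ0 hδ1 hNδ x).trans ?_
    rw [card_range]
    apply add_le_add (mul_le_mul_of_nonneg_right hK3 hδ0.le)
    unfold ES
    apply sum_le_sum
    intro n _
    apply mul_le_mul_of_nonneg_left _ (by positivity)
    have e3 : ∑ i ∈ range K, ee (n * y i) =
        ∑ i ∈ range K, ee ((((n * d : ℕ) : ℝ) * α) * i + n * (α * c0 d c + β)) := by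
      apply sum_congr rfl
      intro i _
      congr 1
      rw [hy]
      push_cast
      ring
    rw [e3]
    exact geo_sum K _ _ _ hK3
  rw [hsum]
  have s1 := hsaw Δ
  have s2 := hsaw 0
  have s3 := abs_sub (∑ k ∈ range K, saw (y k - Δ)) (∑ k ∈ range K, saw (y k - 0))
  have s4 : |Δ * (K : ℝ) - Δ * (X / d)| ≤ 1 := by
    rw [← mul_sub, abs_mul, abs_of_nonneg hΔ0]
    have h6 : |(K : ℝ) - X / d| ≤ 1 := by
      rw [abs_le]
      constructor <;> linarith
    calc Δ * |(K : ℝ) - X / d| ≤ 1 * 1 := mul_le_mul hΔ1 h6 (abs_nonneg _) (by norm_num)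
      _ = 1 := by norm_num
  have e4 : Δ * (K : ℝ) + (∑ k ∈ range K, saw (y k - Δ) - ∑ k ∈ range K, saw (y k - 0)) - Δ * (X / d) =
      (Δ * (K : ℝ) - Δ * (X / d)) + (∑ k ∈ range K, saw (y k - Δ) - ∑ k ∈ range K, saw (y k - 0)) := by
    ring
  rw [e4]
  refine (abs_add_le _ _).trans ?_
  linarith

/-- **The sum of the error terms.** -/
theorem ES_sum (η : ℝ) (hη : 0 < η) : ∃ C : ℝ, 0 < C ∧ ∀ (X N D : ℕ) (α : ℝ) (a : ℤ) (q : ℕ),
    Ap α a q → 1 ≤ N → 1 ≤ D → ∑ d ∈ Icc 1 D, ES X N α d ≤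
      (Nat.log 2 N + 1) * (C * ((2 * N * D : ℕ) : ℝ) ^ η * ((1 + Real.log q + Real.log ((2 * N * D : ℕ) : ℝ)) *
        (8 * q + 12 * D + 24 * (X / q)))) := by
  obtain ⟨C, hC, hdiv⟩ := Pool.Agent.Helper112.divisor_bound η hη
  refine ⟨C, hC, fun X N D α a q h hN hD => ?_⟩
  have hq : (0 : ℝ) < q := by exact_mod_cast (by have := h.two; omega : 0 < q)
  have hlq : 0 ≤ Real.log q := Real.log_nonneg (by
    have := h.two
    exact_mod_cast (by omega : 1 ≤ q))
  have hDr : (1 : ℝ) ≤ D := by exact_mod_cast hD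
  obtain ⟨B, hB⟩ : ∃ B : ℝ, B = C * ((2 * N * D : ℕ) : ℝ) ^ η *
      ((1 + Real.log q + Real.log ((2 * N * D : ℕ) : ℝ)) * (8 * q + 12 * D + 24 * (X / q))) := ⟨_, rfl⟩
  rw [← hB]
  -- the blocks
  have hmaps : ∀ n ∈ Icc 1 N, Nat.log 2 n ∈ range (Nat.log 2 N + 1) := by
    intro n hn
    rw [mem_Icc] at hn
    rw [mem_range]
    have := Nat.log_mono_right (b := 2) hn.2
    omega
  have e1 : ∑ d ∈ Icc 1 D, ES X N α d = ∑ j ∈ range (Nat.log 2 N + 1), ∑ d ∈ Icc 1 D,
      ∑ n ∈ (Icc 1 N).filter (fun n => Nat.log 2 n = j), 1 / (n : ℝ) * GG (2 * X / d) (((n * d : ℕ) : ℝ) * α) := by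
    rw [sum_comm]
    apply sum_congr rfl
    intro d _
    unfold ES
    rw [sum_fiberwise_of_maps_to hmaps]
  rw [e1]
  have hblk : ∀ j ∈ range (Nat.log 2 N + 1), ∑ d ∈ Icc 1 D,
      ∑ n ∈ (Icc 1 N).filter (fun n => Nat.log 2 n = j), 1 / (n : ℝ) * GG (2 * X / d) (((n * d : ℕ) : ℝ) * α) ≤
      B := by
    intro j hj
    rw [mem_range] at hj
    have hjN : 2 ^ j ≤ N := by
      calc 2 ^ j ≤ 2 ^ Nat.log 2 N := Nat.pow_le_pow_right (by norm_num) (by omega)
        _ ≤ N := Nat.pow_log_le_self 2 (by omega)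
    set Bl := (Icc 1 N).filter (fun n => Nat.log 2 n = j) with hBl
    have hn : ∀ n ∈ Bl, 2 ^ j ≤ n ∧ n < 2 ^ (j + 1) := by
      intro n hn
      rw [hBl, mem_filter, mem_Icc] at hn
      have h1 := Nat.pow_log_le_self 2 (x := n) (by omega)
      have h2 := Nat.lt_pow_succ_log_self (b := 2) (by norm_num) n
      rw [hn.2] at h1 h2
      exact ⟨h1, h2⟩
    have h2j : (0 : ℝ) < 2 ^ j := by positivity
    set Z : ℝ := 4 * X * 2 ^ j with hZ
    have hZ0 : 0 ≤ Z := by positivity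
    set M : ℕ := 2 ^ (j + 1) * D with hM
    have hM1 : 1 ≤ M := Nat.mul_pos (by positivity) (by omega)
    have hMN : M ≤ 2 * N * D := by
      rw [hM, pow_succ]
      calc 2 ^ j * 2 * D ≤ N * 2 * D := by gcongr
        _ = _ := by ring
    obtain ⟨F, hF⟩ : ∃ F : ℕ → ℝ, F = fun m : ℕ => GG (Z / m) (m * α) := ⟨_, rfl⟩
    have hF0 : ∀ m, 0 ≤ F m := by
      intro m
      rw [hF]
      exact GG_nonneg _ _ (by positivity)
    have step1 : ∑ d ∈ Icc 1 D, ∑ n ∈ Bl, 1 / (n : ℝ) * GG (2 * X / d) (((n * d : ℕ) : ℝ) * α) ≤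
        1 / 2 ^ j * ∑ x ∈ Icc 1 D ×ˢ Bl, F (x.2 * x.1) := by
      rw [sum_product, mul_sum]
      apply sum_le_sum
      intro d hd
      rw [mul_sum]
      apply sum_le_sum
      intro n hnn
      obtain ⟨g1, g2⟩ := hn n hnn
      have hn0 : (0 : ℝ) < n := by exact_mod_cast lt_of_lt_of_le (by positivity) g1
      have hd0 : (0 : ℝ) < d := by exact_mod_cast (mem_Icc.1 hd).1
      have g1r : (2 : ℝ) ^ j ≤ n := by exact_mod_cast g1
      have g2r : (n : ℝ) ≤ 2 * 2 ^ j := by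
        have : n ≤ 2 ^ (j + 1) := g2.le
        have h3 : (n : ℝ) ≤ ((2 ^ (j + 1) : ℕ) : ℝ) := by exact_mod_cast this
        rw [pow_succ] at h3
        push_cast at h3
        linarith
      apply mul_le_mul (one_div_le_one_div_of_le h2j g1r) _
        (GG_nonneg _ _ (by positivity)) (by positivity)
      rw [hF]
      apply GG_mono
      rw [hZ, Nat.cast_mul, div_le_div_iff₀ hd0 (by positivity)]
      have hX0 : (0 : ℝ) ≤ X := Nat.cast_nonneg _
      calc 2 * (X : ℝ) * (n * d) = (2 * X * d) * n := by ring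
        _ ≤ (2 * X * d) * (2 * 2 ^ j) := mul_le_mul_of_nonneg_left g2r (by positivity)
        _ = _ := by ring
    have step2 : ∑ x ∈ Icc 1 D ×ˢ Bl, F (x.2 * x.1) ≤ ∑ m ∈ Icc 1 M, C * ((2 * N * D : ℕ) : ℝ) ^ η * F m := by
      have hm2 : ∀ x ∈ Icc 1 D ×ˢ Bl, x.2 * x.1 ∈ Icc 1 M := by
        intro x hx
        rw [mem_product, mem_Icc] at hx
        obtain ⟨⟨g1, g2⟩, g3⟩ := hx
        obtain ⟨g4, g5⟩ := hn x.2 g3
        rw [mem_Icc]
        constructor
        · exact Nat.mul_pos (lt_of_lt_of_le (by positivity) g4) (by omega)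
        · exact Nat.mul_le_mul g5.le g2
      rw [← sum_fiberwise_of_maps_to hm2]
      apply sum_le_sum
      intro m hm
      rw [mem_Icc] at hm
      have e2 : ∑ x ∈ (Icc 1 D ×ˢ Bl).filter (fun x => x.2 * x.1 = m), F (x.2 * x.1) =
          (((Icc 1 D ×ˢ Bl).filter (fun x => x.2 * x.1 = m)).card : ℝ) * F m := by
        rw [← nsmul_eq_mul, ← sum_const]
        apply sum_congr rfl
        intro x hx
        rw [(mem_filter.1 hx).2]
      rw [e2]
      apply mul_le_mul_of_nonneg_right _ (hF0 m)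
      have h3 : ((Icc 1 D ×ˢ Bl).filter (fun x => x.2 * x.1 = m)).card ≤ m.divisors.card := by
        apply card_le_card_of_injOn (fun x => x.1)
        · intro x hx
          rw [mem_coe, mem_filter] at hx
          rw [mem_coe, Nat.mem_divisors]
          exact ⟨⟨x.2, by rw [← hx.2, mul_comm]⟩, by omega⟩
        · intro x hx y hy hxy
          rw [mem_coe, mem_filter, mem_product, mem_Icc] at hx hy
          have h4 : x.1 = y.1 := hxy
          have h5 : x.2 * x.1 = y.2 * x.1 := by rw [hx.2, h4, hy.2]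
          have h6 : x.2 = y.2 := Nat.eq_of_mul_eq_mul_right (by omega) h5
          exact Prod.ext h4 h6
      calc (((Icc 1 D ×ˢ Bl).filter (fun x => x.2 * x.1 = m)).card : ℝ) ≤ (m.divisors.card : ℝ) := by
            exact_mod_cast h3
        _ ≤ C * (m : ℝ) ^ η := hdiv m hm.1
        _ ≤ C * ((2 * N * D : ℕ) : ℝ) ^ η := by
            apply mul_le_mul_of_nonneg_left _ hC.le
            apply Real.rpow_le_rpow (by positivity) _ hη.le
            exact_mod_cast hm.2.trans hMN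
    have step3 := vin h M hM1 Z hZ0
    rw [← mul_sum] at step2
    have hP0 : 0 ≤ C * ((2 * N * D : ℕ) : ℝ) ^ η := by positivity
    have hMr : (1 : ℝ) ≤ M := by exact_mod_cast hM1
    have hlM : Real.log M ≤ Real.log ((2 * N * D : ℕ) : ℝ) :=
      Real.log_le_log (by linarith) (by exact_mod_cast hMN)
    have hlM0 : 0 ≤ Real.log M := Real.log_nonneg hMr
    calc ∑ d ∈ Icc 1 D, ∑ n ∈ Bl, 1 / (n : ℝ) * GG (2 * X / d) (((n * d : ℕ) : ℝ) * α) ≤
        1 / 2 ^ j * ∑ x ∈ Icc 1 D ×ˢ Bl, F (x.2 * x.1) := step1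
      _ ≤ 1 / 2 ^ j * (C * ((2 * N * D : ℕ) : ℝ) ^ η * ∑ m ∈ Icc 1 M, F m) :=
          mul_le_mul_of_nonneg_left step2 (by positivity)
      _ ≤ 1 / 2 ^ j * (C * ((2 * N * D : ℕ) : ℝ) ^ η *
          ((1 + Real.log q + Real.log M) * (8 * q + 6 * M + 6 * (Z / q)))) := by
          apply mul_le_mul_of_nonneg_left _ (by positivity)
          apply mul_le_mul_of_nonneg_left _ hP0
          rw [hF]
          exact step3
      _ = C * ((2 * N * D : ℕ) : ℝ) ^ η *
          ((1 + Real.log q + Real.log M) * (1 / 2 ^ j * (8 * q + 6 * M + 6 * (Z / q)))) := by ring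
      _ ≤ B := by
          rw [hB]
          apply mul_le_mul_of_nonneg_left _ hP0
          have g3 : 1 / 2 ^ j * (8 * q + 6 * M + 6 * (Z / q)) ≤ 8 * q + 12 * D + 24 * (X / q) := by
            have g4 : 1 / (2 : ℝ) ^ j * (8 * q + 6 * M + 6 * (Z / q)) =
                8 * q * (1 / 2 ^ j) + 12 * D + 24 * (X / q) := by
              rw [hM, hZ]
              push_cast
              field_simp
              ring
            rw [g4]
            have g5 : 1 / (2 : ℝ) ^ j ≤ 1 := by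
              rw [div_le_one h2j]
              exact one_le_pow₀ (by norm_num)
            have g6 : 8 * (q : ℝ) * (1 / 2 ^ j) ≤ 8 * q * 1 := mul_le_mul_of_nonneg_left g5 (by positivity)
            linarith
          have g7 : 0 ≤ 1 / 2 ^ j * (8 * (q : ℝ) + 6 * M + 6 * (Z / q)) := by positivity
          exact mul_le_mul (by linarith) g3 g7 (by linarith)
  refine (sum_le_sum hblk).trans ?_
  rw [sum_const, nsmul_eq_mul, card_range]
  push_cast
  exact le_rfl

end Pool.Agent.X69.Dio
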