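import Pool.Agent.X69.Dio.Bohr

/-!
Infinitely many `n` with `{α n + β}` small and `n ^ 2 + A` almost prime; the parameters.
-/

set_option autoImplicit false

namespace Pool.Agent.X69.Dio

open Finset Filter
open Pool.Agent.Y882.PX
open Pool.Agent.Y882.SI
open Pool.Agent.X69.NSQ

/-- the parameters of the weighted sieve -/
lemma params (r : ℕ) (t z : ℝ)
    (hpar : (r = 5 ∧ 1 / 2 ≤ t ∧ z = 2 / 5 * t) ∨ (r = 4 ∧ 269 / 500 ≤ t ∧ z = t / 4) ∨
      (r = 3 ∧ 29 / 40 ≤ t ∧ z = t / 4)) :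
    ∃ υ lam S : ℝ, 0 < z ∧ 2 * z < t ∧ t ≤ 4 * z ∧ z ≤ υ ∧ υ < t ∧ 0 < lam ∧
      (∫ x in z..υ, (lam - lam / υ * x) / (t - x) / x < Real.log (t / z - 1) / t) ∧
      1 / lam + S / υ ≤ r + 1 ∧ 2 < S := by
  rcases hpar with ⟨rfl, ht0, rfl⟩ | ⟨rfl, ht0, rfl⟩ | ⟨rfl, ht0, rfl⟩
  · refine ⟨9 / 10 * t, 20 / 31, 1001 / 500, by linarith, by linarith, by linarith, by linarith,
      by linarith, by norm_num, ?_, ?_, by norm_num⟩
    · exact Pool.Agent.Y882.KW.cond_B t (20 / 31) (by linarith) (by norm_num) (by norm_num)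
    · have h3 : (1001 / 500 : ℝ) / (9 / 10 * t) ≤ 4449 / 1000 := by
        rw [div_le_iff₀ (by linarith)]
        linarith
      push_cast
      norm_num at h3 ⊢
      linarith
  · refine ⟨24 / 25 * t, 8 / 9, 2001 / 1000, by linarith, by linarith, by linarith, by linarith,
      by linarith, by norm_num, ?_, ?_, by norm_num⟩
    · exact Pool.Agent.Y882.KW.cond_A t (8 / 9) (by linarith) (by norm_num) (by norm_num)
    · have h3 : (2001 / 1000 : ℝ) / (24 / 25 * t) ≤ 3875 / 1000 := by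
        rw [div_le_iff₀ (by linarith)]
        linarith
      push_cast
      norm_num at h3 ⊢
      linarith
  · refine ⟨24 / 25 * t, 8 / 9, 2001 / 1000, by linarith, by linarith, by linarith, by linarith,
      by linarith, by norm_num, ?_, ?_, by norm_num⟩
    · exact Pool.Agent.Y882.KW.cond_A t (8 / 9) (by linarith) (by norm_num) (by norm_num)
    · have h3 : (2001 / 1000 : ℝ) / (24 / 25 * t) ≤ 2875 / 1000 := by
        rw [div_le_iff₀ (by linarith)]
        linarith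
      push_cast
      norm_num at h3 ⊢
      linarith

/-- good approximations with large denominators -/
lemma exists_ap (α : ℝ) (hα : Irrational α) (M : ℕ) : ∃ (a : ℤ) (q : ℕ), M < q ∧ Ap α a q := by
  obtain ⟨N, hN⟩ : ∃ N : ℕ, N = (M + 1).factorial := ⟨_, rfl⟩
  have hN0 : 0 < N := by rw [hN]; exact Nat.factorial_pos _
  have hir : Irrational ((N : ℝ) * α) := by
    have := hα.natCast_mul (m := N) hN0.ne'
    exact this
  have hη : 0 < |(N : ℝ) * α - round ((N : ℝ) * α)| := by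
    rw [abs_pos, sub_ne_zero]
    exact hir.ne_int _
  obtain ⟨n, hn⟩ := exists_nat_gt ((N : ℝ) / |(N : ℝ) * α - round ((N : ℝ) * α)|)
  have hn0 : 0 < n := by
    have : (0 : ℝ) < n := lt_of_le_of_lt (by positivity) hn
    exact_mod_cast this
  obtain ⟨x, hx1, hx2⟩ := Real.exists_rat_abs_sub_le_and_den_le α hn0
  have hn0r : (0 : ℝ) < n := by exact_mod_cast hn0
  have hxd : (0 : ℝ) < x.den := by exact_mod_cast x.den_pos
  have hbig : M + 1 < x.den := by
    by_contra hcon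
    push Not at hcon
    obtain ⟨e, he⟩ : x.den ∣ N := by
      rw [hN]
      exact Nat.dvd_factorial x.den_pos hcon
    have h1 : (N : ℝ) * x = ((e * x.num : ℤ) : ℝ) := by
      have h2 : (x : ℝ) = (x.num : ℝ) / x.den := by
        have := Rat.num_div_den x
        exact_mod_cast this.symm
      rw [h2, he]
      push_cast
      field_simp
    have h3 := round_le ((N : ℝ) * α) (e * x.num)
    rw [← h1] at h3
    have h4 : |(N : ℝ) * α - N * x| ≤ N / n := by
      rw [← mul_sub, abs_mul, abs_of_nonneg (Nat.cast_nonneg N), div_eq_mul_one_div]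
      apply mul_le_mul_of_nonneg_left _ (Nat.cast_nonneg _)
      refine hx1.trans ?_
      apply one_div_le_one_div_of_le hn0r
      have : (1 : ℝ) ≤ x.den := by exact_mod_cast x.den_pos
      nlinarith
    have h5 : (N : ℝ) / n < |(N : ℝ) * α - round ((N : ℝ) * α)| := by
      rw [div_lt_iff₀ hn0r]
      rw [div_lt_iff₀ hη] at hn
      linarith
    linarith
  refine ⟨x.num, x.den, by omega, ⟨by omega, ?_, ?_⟩⟩
  · rw [Int.isCoprime_iff_gcd_eq_one]
    exact x.reduced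
  · have h2 : (x : ℝ) = (x.num : ℝ) / x.den := by
      have := Rat.num_div_den x
      exact_mod_cast this.symm
    rw [← h2]
    refine hx1.trans ?_
    rw [sq]
    apply one_div_le_one_div_of_le (by positivity)
    apply mul_le_mul_of_nonneg_right _ hxd.le
    have : (x.den : ℝ) ≤ n := by exact_mod_cast hx2
    linarith

/-- infinitely many -/
theorem infinite (A : ℤ) (hA : ¬ IsSquare (-A)) (r : ℕ) (t z : ℝ)
    (hpar : (r = 5 ∧ 1 / 2 ≤ t ∧ z = 2 / 5 * t) ∨ (r = 4 ∧ 269 / 500 ≤ t ∧ z = t / 4) ∨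
      (r = 3 ∧ 29 / 40 ≤ t ∧ z = t / 4)) (θ : ℝ) (hθ : 0 < θ) (hθt : 2 * θ < t) (htθ : t < 1 - θ)
    (α : ℝ) (hα : Irrational α) (β : ℝ) :
    {n : ℕ | (((n : ℤ) ^ 2 + A).natAbs.primeFactorsList.length ≤ r ∧
      ∀ p : ℕ, p.Prime → (p : ℤ) ∣ (n : ℤ) ^ 2 + A → (n : ℝ) ^ z ≤ p) ∧
      Int.fract (α * n + β) < (n : ℝ) ^ (-θ)}.Infinite := by
  classical
  obtain ⟨υ, lam, S, g1, g2, g3, g4, g5, g6, g7, g8, g9⟩ := params r t z hpar
  obtain ⟨c, δ, hc, hδ, X0, HB⟩ := bohr A hA 0 r t z υ lam S θ (1 / 2 - θ) g1 g2 g3 hθ htθ hθt g4 g5 g6 g7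
    g8 g9 (by linarith)
  obtain ⟨c1, hc1, HL⟩ := lo_quad A hA
  intro hfin
  obtain ⟨B, hB⟩ := hfin.bddAbove
  have hgrow : ∀ᶠ X : ℕ in atTop, (B + 1 : ℝ) * Real.log X ≤ c * c1 * (X : ℝ) ^ (1 - θ) := by
    have h1 := (isLittleO_log_rpow_atTop (show 0 < 1 - θ by linarith)).bound
      (show (0 : ℝ) < c * c1 / (B + 1) by positivity)
    filter_upwards [tendsto_natCast_atTop_atTop.eventually h1, eventually_ge_atTop 1] with Y hY hY1
    have hY1r : (1 : ℝ) ≤ Y := by exact_mod_cast hY1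
    rw [Real.norm_of_nonneg (Real.log_nonneg hY1r), Real.norm_of_nonneg (by positivity)] at hY
    have hB0 : (0 : ℝ) < B + 1 := by positivity
    rw [div_mul_eq_mul_div, le_div_iff₀ hB0] at hY
    linarith
  obtain ⟨X1, hX1⟩ := eventually_atTop.1 hgrow
  obtain ⟨a, q, hq, hAp⟩ := exists_ap α hα (max X0 (max X1 3))
  obtain ⟨X, hX⟩ : ∃ X : ℕ, X = q ^ 2 := ⟨_, rfl⟩
  have hqX : q ≤ X := by
    rw [hX]
    nlinarith [hAp.two]
  have hX0 : X0 ≤ X := by
    have := le_max_left X0 (max X1 3)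
    omega
  have hX1' : X1 ≤ X := by
    have := (le_max_left X1 3).trans (le_max_right X0 (max X1 3))
    omega
  have hX3 : 3 ≤ X := by
    have := (le_max_right X1 3).trans (le_max_right X0 (max X1 3))
    omega
  have hXr : (3 : ℝ) ≤ X := by exact_mod_cast hX3
  have hXp : (0 : ℝ) < X := by linarith
  have hX1r : (1 : ℝ) ≤ X := by linarith
  have hlX : 0 < Real.log X := Real.log_pos (by linarith)
  have hhalf : (X : ℝ) ^ (1 / 2 : ℝ) = q := by
    rw [hX]
    push_cast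
    rw [← Real.rpow_natCast, ← Real.rpow_mul (Nat.cast_nonneg q)]
    norm_num
  have hq1 : (X : ℝ) ^ (θ + (1 / 2 - θ)) ≤ q := by
    rw [show θ + (1 / 2 - θ) = 1 / 2 by ring, hhalf]
  have hq2 : (q : ℝ) ≤ (X : ℝ) ^ (1 - θ - (1 / 2 - θ)) := by
    rw [show 1 - θ - (1 / 2 - θ) = 1 / 2 by ring, hhalf]
  have key := HB X hX0 α β a q hAp hq1 hq2 (fun _ => ∅) (fun p _ => by simp)
  have hprod : c1 / Real.log X ≤ ∏ p ∈ (Icc 1 X).filter Nat.Prime,
      (1 - ((Cl A (fun _ => ∅) ((X : ℝ) + 1) p).card : ℝ) / p) := by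
    refine (HL X hX3).trans (le_of_eq ?_)
    unfold lo
    apply prod_congr rfl
    intro p _
    have e : (Cl A (fun _ => ∅) ((X : ℝ) + 1) p).card = ro (QF A) 0 p := by
      rw [ro_eq]
      congr 1
      ext u
      rw [mem_Cl, mem_filter, QF_eval, add_zero, mem_range]
      unfold Pool.Agent.X69.NSQ.Bad
      simp
    rw [e]
  set Gd := Good A r (fun _ => ∅) ((X : ℝ) ^ δ) ((X : ℝ) ^ z) (JB X α β ((X : ℝ) ^ (-θ))) with hGd
  have hcount : (B + 1 : ℝ) ≤ Gd.card := by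
    refine le_trans ?_ key
    calc (B + 1 : ℝ) = (B + 1 : ℝ) * Real.log X / Real.log X := by field_simp
      _ ≤ c * c1 * (X : ℝ) ^ (1 - θ) / Real.log X :=
          div_le_div_of_nonneg_right (hX1 X hX1') hlX.le
      _ = c * ((X : ℝ) ^ (1 - θ) * (c1 / Real.log X)) := by ring
      _ ≤ _ := by
          apply mul_le_mul_of_nonneg_left _ hc.le
          exact mul_le_mul_of_nonneg_left hprod (by positivity)
  have hsub : Gd ⊆ Icc 1 B := by
    intro n hn
    rw [hGd] at hn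
    unfold Good JB at hn
    rw [mem_filter, mem_filter, mem_Icc] at hn
    obtain ⟨⟨⟨hn1, hnX⟩, hn2⟩, ⟨hn3, hn4⟩, _⟩ := hn
    rw [mem_Icc]
    refine ⟨hn1, ?_⟩
    apply hB
    have hn0 : (0 : ℝ) < n := by exact_mod_cast hn1
    have hnXr : (n : ℝ) ≤ X := by exact_mod_cast hnX
    refine ⟨⟨hn3, ?_⟩, ?_⟩
    · intro p hp hpd
      exact (Real.rpow_le_rpow hn0.le hnXr g1.le).trans (hn4 p hp hpd)
    · refine hn2.trans_le ?_
      exact Real.rpow_le_rpow_of_nonpos hn0 hnXr (by linarith)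
  have h9 := card_le_card hsub
  rw [Nat.card_Icc, Nat.add_sub_cancel] at h9
  have h10 : (Gd.card : ℝ) ≤ B := by exact_mod_cast h9
  linarith

end Pool.Agent.X69.Dio
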