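import Pool.Agent.X69.Dio.Cnt
import Pool.Agent.X69.NSQ.AP2

/-!
Almost prime values of `n ^ 2 + A` for `n` in a Bohr set.
-/

set_option autoImplicit false

namespace Pool.Agent.X69.Dio

open Finset Filter
open Pool.Agent.W23.DC
open Pool.Agent.Y882 (PZ exJ tt_lt)
open Pool.Agent.Y882.PX
open Pool.Agent.Y882.KW
open Pool.Agent.Y882.SI
open Pool.Agent.Y882.MG
open Pool.Agent.X69.NSQ

/-- the bound for the error in one class -/
noncomputable def EB (X N : ℕ) (α δ : ℝ) (d : ℕ) : ℝ := 1 + 2 * (2 * X / d * δ + ES X N α d)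

lemma EB_nonneg (X N : ℕ) (α δ : ℝ) (hδ : 0 ≤ δ) (d : ℕ) : 0 ≤ EB X N α δ d := by
  unfold EB
  have := ES_nonneg X N α d
  positivity

open Classical in
lemma err_bohr (A : ℤ) (Ω : ℕ → Finset ℕ) (w : ℝ) (K X N : ℕ) (α β Δ δ : ℝ) (hΔ0 : 0 ≤ Δ)
    (hΔ1 : Δ ≤ 1) (hN : 1 ≤ N) (hδ0 : 0 < δ) (hδ1 : δ ≤ 1) (hNδ : 1 ≤ δ ^ 2 * N) (hX : 1 ≤ X)
    (T : Finset ℕ) (hT : ∀ p ∈ T, p.Prime) (hTX : ∏ p ∈ T, p ≤ X)
    (hK : ∀ p : ℕ, p.Prime → (Ω p).card ≤ K) :
    |Err A Ω w (JB X α β Δ) (fun p => (Cl A Ω w p).card) T| ≤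
      ((K + 2 : ℕ) : ℝ) ^ T.card * (EB X N α δ (∏ p ∈ T, p) +
        1 / ((∏ p ∈ T, p : ℕ) : ℝ) * EB X N α δ 1) := by
  obtain ⟨m, hm⟩ : ∃ m : ℕ, m = ∏ p ∈ T, p := ⟨_, rfl⟩
  have hm1 : 1 ≤ m := by
    rw [hm]
    exact Finset.prod_pos fun p hp => (hT p hp).pos
  have hm0 : (0 : ℝ) < m := by exact_mod_cast hm1
  set R := (range m).filter (fun n => ∀ p ∈ T, n % p ∈ Cl A Ω w p) with hR
  have hcard : R.card = ∏ p ∈ T, (Cl A Ω w p).card := by
    rw [hR, hm]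
    exact Pool.Agent.Cov.card_residues T hT (fun p => Cl A Ω w p) (fun p _ => Cl_sub A Ω w p)
  have hRK : (R.card : ℝ) ≤ ((K + 2 : ℕ) : ℝ) ^ T.card := by
    rw [hcard, ← prod_const]
    push_cast
    apply Finset.prod_le_prod
    · intro p _
      positivity
    · intro p hp
      have := Cl_card_le A Ω w K p (hT p hp) (hK p (hT p hp))
      exact_mod_cast this
  have hmod : ∀ n : ℕ, ∀ p ∈ T, n % m % p = n % p := by
    intro n p hp
    apply Nat.mod_mod_of_dvd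
    rw [hm]
    exact dvd_prod_of_mem _ hp
  have h1 : (((JB X α β Δ).filter (fun n : ℕ => ∀ p ∈ T, Bad A Ω w p n)).card : ℝ) =
      ∑ c ∈ R, (((JB X α β Δ).filter (fun n => n % m = c)).card : ℝ) := by
    have hmaps : ∀ n ∈ (JB X α β Δ).filter (fun n : ℕ => ∀ p ∈ T, Bad A Ω w p n), n % m ∈ R := by
      intro n hn
      rw [mem_filter] at hn
      rw [hR, mem_filter, mem_range]
      refine ⟨Nat.mod_lt _ hm1, fun p hp => ?_⟩
      rw [hmod n p hp, ← bad_iff A Ω w p n (hT p hp).pos]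
      exact hn.2 p hp
    rw [card_eq_sum_card_fiberwise hmaps]
    push_cast
    apply sum_congr rfl
    intro c hc
    congr 2
    rw [filter_filter]
    apply filter_congr
    intro n _
    constructor
    · exact fun h => h.2
    · intro h
      refine ⟨fun p hp => ?_, h⟩
      rw [bad_iff A Ω w p n (hT p hp).pos, ← hmod n p hp, h]
      rw [hR, mem_filter] at hc
      exact hc.2 p hp
  have hcl : ∀ c ∈ R, |(((JB X α β Δ).filter (fun n => n % m = c)).card : ℝ) - Δ * (X / m)| ≤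
      EB X N α δ m := by
    intro c hc
    rw [hR, mem_filter, mem_range] at hc
    exact cnt_class X m c N hm1 (by rw [hm]; exact hTX) hc.1 α β Δ δ hΔ0 hΔ1 hN hδ0 hδ1 hNδ
  have h2 : |∑ c ∈ R, (((JB X α β Δ).filter (fun n => n % m = c)).card : ℝ) - R.card * (Δ * (X / m))| ≤
      R.card * EB X N α δ m := by
    rw [← nsmul_eq_mul (R.card) (Δ * (X / m)), ← sum_const, ← sum_sub_distrib]
    refine (abs_sum_le_sum_abs _ _).trans ((sum_le_sum hcl).trans (le_of_eq ?_))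
    rw [sum_const, nsmul_eq_mul]
  have h3 : |((JB X α β Δ).card : ℝ) - Δ * X| ≤ EB X N α δ 1 := by
    have h4 := cnt_class X 1 0 N le_rfl hX (by norm_num) α β Δ δ hΔ0 hΔ1 hN hδ0 hδ1 hNδ
    have h5 : (JB X α β Δ).filter (fun n => n % 1 = 0) = JB X α β Δ := by
      rw [filter_eq_self]
      intro n _
      exact Nat.mod_one n
    rw [h5] at h4
    unfold EB
    simp only [Nat.cast_one, div_one] at h4 ⊢
    exact h4
  have h6 : ∏ p ∈ T, (((Cl A Ω w p).card : ℝ) / p) = R.card / m := by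
    rw [hcard, hm]
    push_cast
    rw [prod_div_distrib]
  unfold Err
  rw [h1, h6, ← hm]
  have h7 : ∑ c ∈ R, (((JB X α β Δ).filter (fun n => n % m = c)).card : ℝ) -
      (JB X α β Δ).card * (R.card / m) =
      (∑ c ∈ R, (((JB X α β Δ).filter (fun n => n % m = c)).card : ℝ) - R.card * (Δ * (X / m))) -
      (R.card / m) * (((JB X α β Δ).card : ℝ) - Δ * X) := by
    ring
  rw [h7]
  have h8 := abs_sub (∑ c ∈ R, (((JB X α β Δ).filter (fun n => n % m = c)).card : ℝ) - R.card * (Δ * (X / m)))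
      ((R.card / m) * (((JB X α β Δ).card : ℝ) - Δ * X))
  have hRm : (0 : ℝ) ≤ R.card / m := by positivity
  have h9 : |((R.card : ℝ) / m) * (((JB X α β Δ).card : ℝ) - Δ * X)| ≤ R.card / m * EB X N α δ 1 := by
    rw [abs_mul, abs_of_nonneg hRm]
    exact mul_le_mul_of_nonneg_left h3 hRm
  have hE1 := EB_nonneg X N α δ hδ0.le 1
  have hEm := EB_nonneg X N α δ hδ0.le m
  calc _ ≤ R.card * EB X N α δ m + R.card / m * EB X N α δ 1 := h8.trans (add_le_add h2 h9)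
    _ = R.card * (EB X N α δ m + 1 / m * EB X N α δ 1) := by ring
    _ ≤ _ := mul_le_mul_of_nonneg_right hRK (by positivity)

/-- the sum of the bounds -/
lemma EB_sum (X N D : ℕ) (α δ : ℝ) (hδ : 0 ≤ δ) (hD : 1 ≤ D) :
    ∑ d ∈ Icc 1 D, (EB X N α δ d + 1 / (d : ℝ) * EB X N α δ 1) ≤
      (2 + Real.log D) * (2 * D + 8 * X * δ + 4 * ∑ d ∈ Icc 1 D, ES X N α d) := by
  have hDr : (1 : ℝ) ≤ D := by exact_mod_cast hD
  have hlD : 0 ≤ Real.log D := Real.log_nonneg hDr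
  have hh := Pool.Agent.Y882.PX.harm_le D
  obtain ⟨W, hW⟩ : ∃ W : ℝ, W = ∑ d ∈ Icc 1 D, ES X N α d := ⟨_, rfl⟩
  obtain ⟨H, hH⟩ : ∃ H : ℝ, H = ∑ d ∈ Icc 1 D, 1 / (d : ℝ) := ⟨_, rfl⟩
  rw [← hH] at hh
  have hW1 : ES X N α 1 ≤ W := by
    rw [hW]
    exact single_le_sum (fun d _ => ES_nonneg X N α d) (mem_Icc.2 ⟨le_rfl, hD⟩)
  have hW0 : 0 ≤ W := (ES_nonneg X N α 1).trans hW1
  have hH0 : 0 ≤ H := by
    rw [hH]
    positivity
  have hXδ : 0 ≤ (X : ℝ) * δ := by positivity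
  have e1 : ∑ d ∈ Icc 1 D, (EB X N α δ d + 1 / (d : ℝ) * EB X N α δ 1) =
      D + 4 * (X * δ) * H + 2 * W + H * (1 + 2 * (2 * (X * δ) + ES X N α 1)) := by
    unfold EB
    rw [sum_add_distrib, sum_add_distrib, ← sum_mul, ← hH, sum_const, nsmul_eq_mul, mul_one, Nat.card_Icc,
      ← mul_sum, sum_add_distrib, ← hW, Nat.add_sub_cancel]
    have e2 : ∑ d ∈ Icc 1 D, 2 * (X : ℝ) / d * δ = 2 * (X * δ) * H := by
      rw [hH, mul_sum]
      apply sum_congr rfl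
      intro d _
      ring
    rw [e2, Nat.cast_one, div_one]
    ring
  rw [e1, ← hW]
  have g1 : (X * δ) * H ≤ (X * δ) * (1 + Real.log D) := mul_le_mul_of_nonneg_left hh hXδ
  have g2 : H * (1 + 2 * (2 * (X * δ) + ES X N α 1)) ≤ (1 + Real.log D) * (1 + 2 * (2 * (X * δ) + W)) := by
    apply mul_le_mul hh _ (by have := ES_nonneg X N α 1; positivity) (by linarith)
    linarith
  nlinarith [mul_nonneg hlD hXδ, mul_nonneg hlD hW0, mul_nonneg hlD (by linarith : (0 : ℝ) ≤ D)]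

open Classical in
/-- integers of the Bohr set at which a square divides -/
lemma sq_bohr (A : ℤ) (hA : A ≠ 0) (X N : ℕ) (α β Δ δ : ℝ) (hΔ0 : 0 ≤ Δ)
    (hΔ1 : Δ ≤ 1) (hN : 1 ≤ N) (hδ0 : 0 < δ) (hδ1 : δ ≤ 1) (hNδ : 1 ≤ δ ^ 2 * N)
    (s : ℕ) (hs : s.Prime) (hsA : A.natAbs < s) (h2 : 2 < s) (hsX : s ^ 2 ≤ X) :
    (((JB X α β Δ).filter (fun n : ℕ => ((s ^ 2 : ℕ) : ℤ) ∣ (n : ℤ) ^ 2 + A)).card : ℝ) ≤
      4 * (Δ * (X * (1 / (s : ℝ) ^ 2)) + EB X N α δ (s ^ 2)) := by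
  obtain ⟨m, hm⟩ : ∃ m : ℕ, m = s ^ 2 := ⟨_, rfl⟩
  have hm1 : 1 ≤ m := by
    rw [hm]
    exact Nat.pow_pos hs.pos
  rw [← hm]
  have hms : (m : ℝ) = (s : ℝ) ^ 2 := by
    rw [hm]
    push_cast
    ring
  have hms0 : (0 : ℝ) < (s : ℝ) ^ 2 := by
    rw [← hms]
    exact_mod_cast hm1
  set R := (range m).filter (fun c : ℕ => (m : ℤ) ∣ (c : ℤ) ^ 2 + A) with hR
  have hR4 : (R.card : ℝ) ≤ 4 := by
    have h3 := sq_ap A hA s hs hsA h2 0 1 m (fun h => absurd h (by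
      intro h
      exact hs.one_lt.ne' (Nat.dvd_one.1 h)))
    have h4 : R ⊆ (Icc 1 m).filter
        (fun j : ℕ => ((s ^ 2 : ℕ) : ℤ) ∣ ((0 + 1 * j : ℕ) : ℤ) ^ 2 + A) := by
      intro c hc
      rw [hR, mem_filter, mem_range] at hc
      rw [mem_filter, mem_Icc, zero_add, one_mul, ← hm]
      refine ⟨⟨?_, hc.1.le⟩, hc.2⟩
      rcases Nat.eq_zero_or_pos c with h0 | h0
      · exfalso
        rw [h0] at hc
        have h5 : (m : ℤ) ∣ A := by
          have := hc.2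
          simpa using this
        have h6 : m ∣ A.natAbs := Int.natCast_dvd.1 h5
        have h7 := Nat.le_of_dvd (Int.natAbs_pos.2 hA) h6
        have h8 : s ≤ m := by
          rw [hm]
          nlinarith
        omega
      · exact h0
    have h5 : (R.card : ℝ) ≤ ((((Icc 1 m).filter
        (fun j : ℕ => ((s ^ 2 : ℕ) : ℤ) ∣ ((0 + 1 * j : ℕ) : ℤ) ^ 2 + A)).card : ℕ) : ℝ) := by
      exact_mod_cast card_le_card h4
    refine h5.trans (h3.trans (le_of_eq ?_))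
    rw [hms]
    field_simp
    norm_num
  have hcong : ∀ n : ℕ, (m : ℤ) ∣ (n : ℤ) ^ 2 + A ↔ (m : ℤ) ∣ ((n % m : ℕ) : ℤ) ^ 2 + A := by
    intro n
    have h1 := bad_mod A (fun _ => ∅) 0 m n
    unfold Pool.Agent.X69.NSQ.Bad at h1
    simpa using h1
  have hmaps : ∀ n ∈ (JB X α β Δ).filter (fun n : ℕ => (m : ℤ) ∣ (n : ℤ) ^ 2 + A), n % m ∈ R := by
    intro n hn
    rw [mem_filter] at hn
    rw [hR, mem_filter, mem_range]
    exact ⟨Nat.mod_lt _ hm1, (hcong n).1 hn.2⟩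
  rw [card_eq_sum_card_fiberwise hmaps]
  push_cast
  have hE := EB_nonneg X N α δ hδ0.le m
  calc ∑ c ∈ R, ((((JB X α β Δ).filter (fun n : ℕ => (m : ℤ) ∣ (n : ℤ) ^ 2 + A)).filter
        (fun n => n % m = c)).card : ℝ) ≤
      ∑ c ∈ R, (Δ * (X * (1 / (s : ℝ) ^ 2)) + EB X N α δ m) := by
        apply sum_le_sum
        intro c hc
        rw [hR, mem_filter, mem_range] at hc
        have h1 := cnt_class X m c N hm1 (by rw [hm]; exact hsX) hc.1 α β Δ δ hΔ0 hΔ1 hN hδ0 hδ1 hNδ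
        have h3 : ((((JB X α β Δ).filter (fun n : ℕ => (m : ℤ) ∣ (n : ℤ) ^ 2 + A)).filter
            (fun n => n % m = c)).card : ℝ) ≤ (((JB X α β Δ).filter (fun n => n % m = c)).card : ℝ) := by
          exact_mod_cast card_le_card (filter_subset_filter _ (filter_subset _ _))
        have h4 := (abs_le.1 h1).2
        unfold EB
        have h5 : Δ * ((X : ℝ) / m) = Δ * (X * (1 / (s : ℝ) ^ 2)) := by
          rw [hms]
          ring
        rw [h5] at h4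
        linarith
    _ = R.card * (Δ * (X * (1 / (s : ℝ) ^ 2)) + EB X N α δ m) := by rw [sum_const, nsmul_eq_mul]
    _ ≤ _ := mul_le_mul_of_nonneg_right hR4 (by positivity)

end Pool.Agent.X69.Dio
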