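import Pool.Agent.X121.AB.ET

/-!
Sums of the sawtooth function and exponential sums; geometric sums.
-/

set_option autoImplicit false

namespace Pool.Agent.X69.Dio

open Finset Filter
open Pool.Agent.Y93.VK (ee ee_add norm_ee ee_zero ee_neg ee_eq ee_dz)
open Pool.Agent.Y957.VK (dz)
open Pool.Agent.X121.AB

theorem Pn_diff' (s : Finset ℕ) (y : ℕ → ℝ) (N : ℕ) (a b : ℝ) :
    |∑ i ∈ s, (Pn N (y i - a) - Pn N (y i - b))| ≤
      2 * Real.pi * |a - b| * ∑ n ∈ Icc 1 N, 1 / (n : ℝ) * ‖∑ i ∈ s, ee (n * y i)‖ := by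
  have h1 : ∑ i ∈ s, (Pn N (y i - a) - Pn N (y i - b)) =
      ∑ n ∈ Finset.range (N + 1), 1 / (n : ℝ) ^ 2 *
        ((ee (-(n * a)) - ee (-(n * b))) * ∑ i ∈ s, ee (n * y i)).re := by
    unfold Pn
    simp only [← Finset.sum_sub_distrib]
    rw [Finset.sum_comm]
    refine Finset.sum_congr rfl fun n _ => ?_
    rw [Finset.mul_sum, Complex.re_sum, Finset.mul_sum]
    refine Finset.sum_congr rfl fun i _ => ?_
    rw [sub_mul, ← ee_add, ← ee_add, Complex.sub_re, ← cos_eq_re, ← cos_eq_re]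
    have e1 : 2 * Real.pi * (-(n * a) + n * y i) = 2 * Real.pi * n * (y i - a) := by ring
    have e2 : 2 * Real.pi * (-(n * b) + n * y i) = 2 * Real.pi * n * (y i - b) := by ring
    rw [e1, e2]
    ring
  rw [h1]
  refine (Finset.abs_sum_le_sum_abs _ _).trans ?_
  rw [Finset.sum_range_succ']
  have h0 : |1 / (((0 : ℕ) : ℝ)) ^ 2 * ((ee (-(((0 : ℕ) : ℝ) * a)) - ee (-(((0 : ℕ) : ℝ) * b))) *
      ∑ i ∈ s, ee (((0 : ℕ) : ℝ) * y i)).re| = 0 := by simp
  rw [h0, add_zero, mul_sum]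
  have e3 : Icc 1 N = (range N).image (fun n => n + 1) := by
    ext x
    simp only [mem_Icc, mem_image, mem_range]
    constructor
    · intro h
      exact ⟨x - 1, by omega, by omega⟩
    · rintro ⟨m, hm, rfl⟩
      omega
  rw [e3, sum_image (by intro x _ y _ h; have h' : x + 1 = y + 1 := h; omega)]
  refine Finset.sum_le_sum fun n _ => ?_
  have hn0 : (0 : ℝ) < ((n + 1 : ℕ) : ℝ) := by positivity
  rw [abs_mul, abs_of_nonneg (by positivity : (0 : ℝ) ≤ 1 / (((n + 1 : ℕ) : ℝ)) ^ 2)]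
  have h2 : |((ee (-(((n + 1 : ℕ) : ℝ) * a)) - ee (-(((n + 1 : ℕ) : ℝ) * b))) *
      ∑ i ∈ s, ee (((n + 1 : ℕ) : ℝ) * y i)).re| ≤
      (2 * Real.pi * (((n + 1 : ℕ) : ℝ) * |a - b|)) * ‖∑ i ∈ s, ee (((n + 1 : ℕ) : ℝ) * y i)‖ := by
    refine (Complex.abs_re_le_norm _).trans ?_
    rw [norm_mul]
    apply mul_le_mul_of_nonneg_right _ (norm_nonneg _)
    refine (ee_sub_le _ _).trans (le_of_eq ?_)
    have : -(((n + 1 : ℕ) : ℝ) * a) - -(((n + 1 : ℕ) : ℝ) * b) = -(((n + 1 : ℕ) : ℝ) * (a - b)) := by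
      ring
    rw [this, abs_neg, abs_mul, abs_of_pos hn0]
  calc _ ≤ 1 / (((n + 1 : ℕ) : ℝ)) ^ 2 * ((2 * Real.pi * (((n + 1 : ℕ) : ℝ) * |a - b|)) *
        ‖∑ i ∈ s, ee (((n + 1 : ℕ) : ℝ) * y i)‖) :=
        mul_le_mul_of_nonneg_left h2 (by positivity)
    _ = 2 * Real.pi * |a - b| * (1 / ((n + 1 : ℕ) : ℝ) * ‖∑ i ∈ s, ee (((n + 1 : ℕ) : ℝ) * y i)‖) := by
        field_simp

theorem be_diff' (s : Finset ℕ) (y : ℕ → ℝ) {N : ℕ} (hN : 1 ≤ N) (a b : ℝ) :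
    |∑ i ∈ s, (be (y i - a) - be (y i - b))| ≤
      |a - b| * (∑ n ∈ Icc 1 N, 1 / (n : ℝ) * ‖∑ i ∈ s, ee (n * y i)‖) + s.card / N := by
  have hpi := Real.pi_pos
  have hpi3 := Real.pi_gt_three
  have hN0 : (0 : ℝ) < N := by exact_mod_cast hN
  have h1 := Pn_diff' s y N a b
  have h2 : |Real.pi ^ 2 * ∑ i ∈ s, (be (y i - a) - be (y i - b)) -
      ∑ i ∈ s, (Pn N (y i - a) - Pn N (y i - b))| ≤ 2 * (s.card / N) := by
    rw [Finset.mul_sum, ← Finset.sum_sub_distrib]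
    refine (Finset.abs_sum_le_sum_abs _ _).trans ?_
    calc _ ≤ ∑ i ∈ s, (2 / (N : ℝ)) := by
          refine Finset.sum_le_sum fun i _ => ?_
          have e1 := be_approx hN (y i - a)
          have e2 := be_approx hN (y i - b)
          calc |Real.pi ^ 2 * (be (y i - a) - be (y i - b)) - (Pn N (y i - a) - Pn N (y i - b))|
              = |(Real.pi ^ 2 * be (y i - a) - Pn N (y i - a)) -
                (Real.pi ^ 2 * be (y i - b) - Pn N (y i - b))| := by congr 1; ring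
            _ ≤ _ := abs_sub _ _
            _ ≤ 1 / N + 1 / N := add_le_add e1 e2
            _ = 2 / N := by ring
      _ = 2 * (s.card / N) := by
          rw [Finset.sum_const, nsmul_eq_mul]
          ring
  obtain ⟨W, hW⟩ : ∃ W : ℝ, W = ∑ n ∈ Icc 1 N, 1 / (n : ℝ) * ‖∑ i ∈ s, ee (n * y i)‖ := ⟨_, rfl⟩
  have hW0 : 0 ≤ W := by
    rw [hW]
    apply sum_nonneg
    intro n _
    positivity
  rw [← hW] at h1 ⊢
  obtain ⟨D, hD⟩ : ∃ D : ℝ, D = ∑ i ∈ s, (be (y i - a) - be (y i - b)) := ⟨_, rfl⟩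
  obtain ⟨E, hE⟩ : ∃ E : ℝ, E = ∑ i ∈ s, (Pn N (y i - a) - Pn N (y i - b)) := ⟨_, rfl⟩
  rw [← hD, ← hE] at h2
  rw [← hE] at h1
  rw [← hD]
  obtain ⟨Q, hQ⟩ : ∃ Q : ℝ, Q = (s.card : ℝ) / N := ⟨_, rfl⟩
  have hQ0 : 0 ≤ Q := by rw [hQ]; positivity
  rw [← hQ] at h2 ⊢
  have h3 : Real.pi ^ 2 * |D| ≤ 2 * Real.pi * |a - b| * W + 2 * Q := by
    calc Real.pi ^ 2 * |D| = |Real.pi ^ 2 * D| := by
          rw [abs_mul, abs_of_pos (by positivity : (0 : ℝ) < Real.pi ^ 2)]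
      _ = |(Real.pi ^ 2 * D - E) + E| := by congr 1; ring
      _ ≤ 2 * Q + 2 * Real.pi * |a - b| * W := (abs_add_le _ _).trans (add_le_add h2 h1)
      _ = _ := by ring
  have hz : 0 ≤ |a - b| * W := by positivity
  have h4 : 2 * Real.pi * |a - b| * W ≤ Real.pi ^ 2 * (|a - b| * W) := by
    have : 2 * Real.pi ≤ Real.pi ^ 2 := by nlinarith
    calc _ = 2 * Real.pi * (|a - b| * W) := by ring
      _ ≤ _ := mul_le_mul_of_nonneg_right this hz
  have h5 : Real.pi ^ 2 * |D| ≤ Real.pi ^ 2 * (|a - b| * W + Q) := by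
    have : (2 : ℝ) ≤ Real.pi ^ 2 := by nlinarith
    nlinarith
  exact le_of_mul_le_mul_left h5 (by positivity)

/-- sums of the sawtooth function -/
theorem saw_sum' (s : Finset ℕ) (y : ℕ → ℝ) {N : ℕ} (hN : 1 ≤ N) {δ : ℝ} (hδ0 : 0 < δ) (hδ1 : δ ≤ 1)
    (hNδ : 1 ≤ δ ^ 2 * N) (a : ℝ) :
    |∑ i ∈ s, saw (y i - a)| ≤
      s.card * δ + ∑ n ∈ Icc 1 N, 1 / (n : ℝ) * ‖∑ i ∈ s, ee (n * y i)‖ := by
  have hN0 : (0 : ℝ) < N := by exact_mod_cast hN
  obtain ⟨W, hW⟩ : ∃ W : ℝ, W = ∑ n ∈ Icc 1 N, 1 / (n : ℝ) * ‖∑ i ∈ s, ee (n * y i)‖ := ⟨_, rfl⟩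
  have hW0 : 0 ≤ W := by
    rw [hW]
    apply sum_nonneg
    intro n _
    positivity
  have hc0 : (0 : ℝ) ≤ s.card := Nat.cast_nonneg _
  have hcN : (s.card : ℝ) / N ≤ s.card * δ ^ 2 := by
    rw [div_le_iff₀ hN0]
    calc (s.card : ℝ) = s.card * 1 := (mul_one _).symm
      _ ≤ s.card * (δ ^ 2 * N) := mul_le_mul_of_nonneg_left hNδ hc0
      _ = _ := by ring
  have hup : 2 * δ * ∑ i ∈ s, saw (y i - a) ≤ δ * W + 2 * (s.card * δ ^ 2) := by
    have h1 := be_diff' s y hN a (a + δ)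
    rw [← hW] at h1
    have h2 : |a - (a + δ)| = δ := by rw [show a - (a + δ) = -δ by ring, abs_neg, abs_of_pos hδ0]
    rw [h2] at h1
    have h3 := (abs_le.1 h1).2
    calc 2 * δ * ∑ i ∈ s, saw (y i - a) = ∑ i ∈ s, 2 * δ * saw (y i - a) := by
          rw [Finset.mul_sum]
      _ ≤ ∑ i ∈ s, ((be (y i - a) - be (y i - (a + δ))) + δ ^ 2) := by
          refine Finset.sum_le_sum fun i _ => ?_
          have h4 := saw_le hδ0 hδ1 (y i - a)
          rw [show y i - a - δ = y i - (a + δ) by ring] at h4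
          exact h4
      _ = ∑ i ∈ s, (be (y i - a) - be (y i - (a + δ))) + s.card * δ ^ 2 := by
          rw [Finset.sum_add_distrib, Finset.sum_const, nsmul_eq_mul]
      _ ≤ _ := by linarith
  have hlow : -(δ * W + 2 * (s.card * δ ^ 2)) ≤ 2 * δ * ∑ i ∈ s, saw (y i - a) := by
    have h1 := be_diff' s y hN (a - δ) a
    rw [← hW] at h1
    have h2 : |(a - δ) - a| = δ := by rw [show a - δ - a = -δ by ring, abs_neg, abs_of_pos hδ0]
    rw [h2] at h1
    have h3 := (abs_le.1 h1).1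
    calc _ ≤ ∑ i ∈ s, (be (y i - (a - δ)) - be (y i - a)) - s.card * δ ^ 2 := by linarith
      _ = ∑ i ∈ s, ((be (y i - (a - δ)) - be (y i - a)) - δ ^ 2) := by
          rw [Finset.sum_sub_distrib (f := fun i => be (y i - (a - δ)) - be (y i - a)),
            Finset.sum_const, nsmul_eq_mul]
      _ ≤ ∑ i ∈ s, 2 * δ * saw (y i - a) := by
          refine Finset.sum_le_sum fun i _ => ?_
          have h4 := saw_ge hδ0 hδ1 (y i - a)
          rw [show y i - a + δ = y i - (a - δ) by ring] at h4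
          exact h4
      _ = _ := by rw [Finset.mul_sum]
  have e1 : δ * W + 2 * (s.card * δ ^ 2) = 2 * δ * (W / 2 + s.card * δ) := by ring
  rw [e1] at hup hlow
  rw [← hW, abs_le]
  constructor
  · have h5 : 2 * δ * (-(W / 2 + s.card * δ)) ≤ 2 * δ * ∑ i ∈ s, saw (y i - a) := by linarith
    have := le_of_mul_le_mul_left h5 (by positivity)
    linarith
  · have := le_of_mul_le_mul_left hup (by positivity)
    linarith

/-- the geometric sum -/
theorem geo_sum (K : ℕ) (t u : ℝ) (B : ℝ) (hK : (K : ℝ) ≤ B) :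
    ‖∑ k ∈ range K, ee (t * k + u)‖ ≤ if dz t = 0 then B else min B (1 / (2 * dz t)) := by
  have h1 : ‖∑ k ∈ range K, ee (t * k + u)‖ ≤ K := by
    refine (norm_sum_le _ _).trans ?_
    rw [Finset.sum_congr rfl fun (k : ℕ) _ => norm_ee (t * k + u), Finset.sum_const, nsmul_eq_mul,
      mul_one, card_range]
  split_ifs with h
  · exact h1.trans hK
  refine le_min (h1.trans hK) ?_
  have hd : 0 < dz t := lt_of_le_of_ne (abs_nonneg _) (Ne.symm h)
  have h2 := ee_dz t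
  have h3 : ee t ≠ 1 := by
    intro h4
    rw [h4, sub_self, norm_zero] at h2
    linarith
  have h4 : ∑ k ∈ range K, ee (t * k + u) = ee u * ((ee t ^ K - 1) / (ee t - 1)) := by
    rw [← geom_sum_eq h3, Finset.mul_sum]
    refine Finset.sum_congr rfl fun k _ => ?_
    rw [add_comm, ee_add, Pool.Agent.Y93.VK.ee_nat]
  rw [h4, norm_mul, norm_ee, one_mul, norm_div]
  have h5 : ‖ee t ^ K - 1‖ ≤ 2 := by
    refine (norm_sub_le _ _).trans ?_
    rw [norm_pow, norm_ee, one_pow, norm_one]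
    norm_num
  calc ‖ee t ^ K - 1‖ / ‖ee t - 1‖ ≤ 2 / (4 * dz t) :=
        div_le_div₀ (by norm_num) h5 (by positivity) h2
    _ = _ := by
        field_simp
        norm_num

end Pool.Agent.X69.Dio
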