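import Pool.Agent.X69.Dio.Main

/-!
The total error for a Bohr set.
-/

set_option autoImplicit false

namespace Pool.Agent.X69.Dio

open Finset Filter

lemma log_pow_le (c e : ℝ) (hc : 0 < c) (he : 0 < e) : ∀ᶠ Y : ℕ in atTop,
    c * (1 + Real.log Y) ≤ (Y : ℝ) ^ e := by
  have h1 := (isLittleO_log_rpow_atTop he).bound (show (0 : ℝ) < 1 / (2 * c) by positivity)
  have h2 : ∀ᶠ Y : ℕ in atTop, 2 * c ≤ (Y : ℝ) ^ e :=
    ((tendsto_rpow_atTop he).comp tendsto_natCast_atTop_atTop).eventually_ge_atTop _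
  filter_upwards [tendsto_natCast_atTop_atTop.eventually h1, eventually_ge_atTop 1, h2] with Y hY hY1 hY2
  have hY1r : (1 : ℝ) ≤ Y := by exact_mod_cast hY1
  rw [Real.norm_of_nonneg (Real.log_nonneg hY1r), Real.norm_of_nonneg (by positivity)] at hY
  rw [div_mul_eq_mul_div, one_mul, le_div_iff₀ (by positivity)] at hY
  linarith

theorem tot (θ τ κ μ : ℝ) (hθ : 0 < θ) (hτ0 : 0 < τ) (hs : τ < 1 - θ) (hμ : 0 < μ)
    (hμκ : μ ≤ κ) (hμs : μ ≤ (1 - θ - τ) / 2) : ∃ X0 : ℕ, ∀ X : ℕ, X0 ≤ X → ∀ (α : ℝ) (a : ℤ) (q : ℕ),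
      Ap α a q → (X : ℝ) ^ (θ + κ) ≤ q → (q : ℝ) ≤ (X : ℝ) ^ (1 - θ - κ) →
      (X : ℝ) ^ (μ / 20) * ∑ d ∈ Icc 1 ⌊(X : ℝ) ^ (τ + (1 - θ - τ) / 4)⌋₊,
        (EB X ⌈(X : ℝ) ^ (1 + θ - τ)⌉₊ α ((X : ℝ) ^ (-(θ + (1 - θ - τ) / 2))) d +
          1 / (d : ℝ) * EB X ⌈(X : ℝ) ^ (1 + θ - τ)⌉₊ α ((X : ℝ) ^ (-(θ + (1 - θ - τ) / 2))) 1) ≤
        (X : ℝ) ^ (1 - θ - μ / 2) := by
  obtain ⟨C, hC, HE⟩ := ES_sum (μ / 80) (by linarith)
  have ev1 := log_pow_le 8 (μ / 40) (by norm_num) (by linarith)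
  have ev2 := log_pow_le (2 * (10 + 176 * C)) (7 * μ / 20) (by positivity) (by linarith)
  obtain ⟨X0, hX0⟩ := eventually_atTop.1 (ev1.and (ev2.and (eventually_ge_atTop 3)))
  refine ⟨X0, fun X hX α a q hAp hq1 hq2 => ?_⟩
  obtain ⟨e1, e2, e3⟩ := hX0 X hX
  have hXr : (3 : ℝ) ≤ X := by exact_mod_cast e3
  have hXp : (0 : ℝ) < X := by linarith
  have hX1r : (1 : ℝ) ≤ X := by linarith
  have hlX : 0 ≤ Real.log X := Real.log_nonneg hX1r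
  obtain ⟨s, hsd⟩ : ∃ s : ℝ, s = 1 - θ - τ := ⟨_, rfl⟩
  obtain ⟨h, hh⟩ : ∃ h : ℝ, h = 1 - θ := ⟨_, rfl⟩
  rw [← hsd] at hμs ⊢
  obtain ⟨N, hN⟩ : ∃ N : ℕ, N = ⌈(X : ℝ) ^ (1 + θ - τ)⌉₊ := ⟨_, rfl⟩
  obtain ⟨D, hD⟩ : ∃ D : ℕ, D = ⌊(X : ℝ) ^ (τ + s / 4)⌋₊ := ⟨_, rfl⟩
  obtain ⟨δ, hδ⟩ : ∃ δ : ℝ, δ = (X : ℝ) ^ (-(θ + s / 2)) := ⟨_, rfl⟩
  rw [← hN, ← hD, ← hδ]
  have hpw : ∀ x y : ℝ, x ≤ y → (X : ℝ) ^ x ≤ (X : ℝ) ^ y := fun x y hxy =>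
    Real.rpow_le_rpow_of_exponent_le hX1r hxy
  have hX1 : (X : ℝ) ^ (1 : ℝ) = X := Real.rpow_one _
  have hδ0 : 0 < δ := by rw [hδ]; positivity
  have hD1 : 1 ≤ D := by
    rw [hD]
    apply Nat.le_floor
    rw [Nat.cast_one]
    exact Real.one_le_rpow hX1r (by linarith)
  have hDle : (D : ℝ) ≤ (X : ℝ) ^ (τ + s / 4) := by
    rw [hD]
    exact Nat.floor_le (by positivity)
  have hDX : (D : ℝ) ≤ X := hDle.trans (by
    calc (X : ℝ) ^ (τ + s / 4) ≤ (X : ℝ) ^ (1 : ℝ) := hpw _ _ (by linarith)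
      _ = X := hX1)
  have hN1 : 1 ≤ N := by
    rw [hN]
    exact Nat.one_le_ceil_iff.2 (by positivity)
  have hNle : (N : ℝ) ≤ (X : ℝ) ^ 2 + 1 := by
    have h1 : (N : ℝ) < (X : ℝ) ^ (1 + θ - τ) + 1 := by
      rw [hN]
      exact Nat.ceil_lt_add_one (by positivity)
    have h2 : (X : ℝ) ^ (1 + θ - τ) ≤ (X : ℝ) ^ (2 : ℝ) := hpw _ _ (by linarith)
    rw [Real.rpow_two] at h2
    linarith
  have hqX : (q : ℝ) ≤ X := hq2.trans (by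
    calc (X : ℝ) ^ (1 - θ - κ) ≤ (X : ℝ) ^ (1 : ℝ) := hpw _ _ (by linarith)
      _ = X := hX1)
  have hq0 : (0 : ℝ) < q := by exact_mod_cast (by have := hAp.two; omega : 0 < q)
  have hND : ((2 * N * D : ℕ) : ℝ) ≤ (X : ℝ) ^ 4 := by
    push_cast
    have hN0 : (0 : ℝ) ≤ N := Nat.cast_nonneg _
    calc 2 * (N : ℝ) * D ≤ 2 * ((X : ℝ) ^ 2 + 1) * X := by gcongr
      _ ≤ (X : ℝ) ^ 4 := by nlinarith [sq_nonneg ((X : ℝ) ^ 2), pow_pos hXp 3, pow_pos hXp 2]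
  have hND0 : (0 : ℝ) < ((2 * N * D : ℕ) : ℝ) := by
    have : 0 < 2 * N * D := by positivity
    exact_mod_cast this
  have hlND : Real.log ((2 * N * D : ℕ) : ℝ) ≤ 4 * Real.log X := by
    have := Real.log_le_log hND0 hND
    rwa [Real.log_pow] at this
  have hlq : Real.log q ≤ Real.log X := Real.log_le_log hq0 hqX
  have hlN : ((Nat.log 2 N : ℕ) : ℝ) ≤ 6 * Real.log X := by
    have h1 := Nat.pow_log_le_self 2 (x := N) (by omega)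
    have h2 : (2 : ℝ) ^ Nat.log 2 N ≤ (X : ℝ) ^ 4 := by
      have h3 : (2 : ℝ) ^ Nat.log 2 N ≤ N := by exact_mod_cast h1
      nlinarith [sq_nonneg ((X : ℝ) ^ 2), pow_pos hXp 3, pow_pos hXp 2]
    have h3 := Real.log_le_log (by positivity) h2
    rw [Real.log_pow, Real.log_pow] at h3
    have h4 : 0.69 < Real.log 2 := by linarith [Real.log_two_gt_d9]
    have h5 : ((Nat.log 2 N : ℕ) : ℝ) * 0.69 ≤ (Nat.log 2 N : ℕ) * Real.log 2 :=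
      mul_le_mul_of_nonneg_left h4.le (Nat.cast_nonneg _)
    push_cast at h3
    linarith
  have hη : ((2 * N * D : ℕ) : ℝ) ^ (μ / 80) ≤ (X : ℝ) ^ (μ / 20) := by
    calc ((2 * N * D : ℕ) : ℝ) ^ (μ / 80) ≤ ((X : ℝ) ^ 4) ^ (μ / 80) :=
          Real.rpow_le_rpow hND0.le hND (by linarith)
      _ = (X : ℝ) ^ (μ / 20) := by
          rw [← Real.rpow_natCast, ← Real.rpow_mul hXp.le]
          congr 1
          push_cast
          ring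
  -- the sum of the `ES`
  obtain ⟨W, hW⟩ : ∃ W : ℝ, W = ∑ d ∈ Icc 1 D, ES X N α d := ⟨_, rfl⟩
  have hWle : W ≤ 44 * C * (X : ℝ) ^ (h - 9 * μ / 10) := by
    have h1 := HE X N D α a q hAp hN1 hD1
    rw [← hW] at h1
    refine h1.trans ?_
    have g1 : 8 * (q : ℝ) + 12 * D + 24 * (X / q) ≤ 44 * (X : ℝ) ^ (h - μ) := by
      have u1 : (q : ℝ) ≤ (X : ℝ) ^ (h - μ) := hq2.trans (hpw _ _ (by linarith))
      have u2 : (D : ℝ) ≤ (X : ℝ) ^ (h - μ) := hDle.trans (hpw _ _ (by linarith))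
      have u3 : (X : ℝ) / q ≤ (X : ℝ) ^ (h - μ) := by
        calc (X : ℝ) / q ≤ (X : ℝ) / (X : ℝ) ^ (θ + κ) :=
              div_le_div_of_nonneg_left hXp.le (by positivity) hq1
          _ = (X : ℝ) ^ (1 - (θ + κ)) := by rw [Real.rpow_sub hXp, hX1]
          _ ≤ _ := hpw _ _ (by linarith)
      linarith
    have g2 : ((Nat.log 2 N : ℕ) : ℝ) + 1 ≤ (X : ℝ) ^ (μ / 40) := by linarith
    have g3 : 1 + Real.log q + Real.log ((2 * N * D : ℕ) : ℝ) ≤ (X : ℝ) ^ (μ / 40) := by linarith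
    have g4 : 0 ≤ 1 + Real.log q + Real.log ((2 * N * D : ℕ) : ℝ) := by
      have u1 : 0 ≤ Real.log q := Real.log_nonneg (by
        have := hAp.two
        exact_mod_cast (by omega : 1 ≤ q))
      have u2 : 0 ≤ Real.log ((2 * N * D : ℕ) : ℝ) := Real.log_nonneg (by
        have : 1 ≤ 2 * N * D := by
          have : 0 < 2 * N * D := by positivity
          omega
        exact_mod_cast this)
      linarith
    calc ((Nat.log 2 N : ℕ) + 1) * (C * ((2 * N * D : ℕ) : ℝ) ^ (μ / 80) *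
          ((1 + Real.log q + Real.log ((2 * N * D : ℕ) : ℝ)) * (8 * q + 12 * D + 24 * (X / q)))) ≤
        (X : ℝ) ^ (μ / 40) * (C * (X : ℝ) ^ (μ / 20) * ((X : ℝ) ^ (μ / 40) * (44 * (X : ℝ) ^ (h - μ)))) := by
          gcongr
      _ = 44 * C * ((X : ℝ) ^ (μ / 40) * ((X : ℝ) ^ (μ / 20) * ((X : ℝ) ^ (μ / 40) * (X : ℝ) ^ (h - μ)))) := by
          ring
      _ = _ := by
          rw [← Real.rpow_add hXp, ← Real.rpow_add hXp, ← Real.rpow_add hXp]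
          congr 2
          ring
  have hmain := EB_sum X N D α δ hδ0.le hD1
  rw [← hW] at hmain
  have hXδ : (X : ℝ) * δ ≤ (X : ℝ) ^ (h - 9 * μ / 10) := by
    calc (X : ℝ) * δ = (X : ℝ) ^ (1 : ℝ) * (X : ℝ) ^ (-(θ + s / 2)) := by rw [hX1, hδ]
      _ = (X : ℝ) ^ (1 + -(θ + s / 2)) := (Real.rpow_add hXp _ _).symm
      _ ≤ _ := hpw _ _ (by linarith)
  have hDh : (D : ℝ) ≤ (X : ℝ) ^ (h - 9 * μ / 10) := hDle.trans (hpw _ _ (by linarith))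
  have hlD : Real.log D ≤ Real.log X := by
    apply Real.log_le_log _ hDX
    exact_mod_cast hD1
  have hlD0 : 0 ≤ Real.log D := Real.log_nonneg (by exact_mod_cast hD1)
  have hW0 : 0 ≤ W := by
    rw [hW]
    exact sum_nonneg fun d _ => ES_nonneg X N α d
  calc (X : ℝ) ^ (μ / 20) * ∑ d ∈ Icc 1 D, (EB X N α δ d + 1 / (d : ℝ) * EB X N α δ 1) ≤
      (X : ℝ) ^ (μ / 20) * ((2 + Real.log D) * (2 * D + 8 * X * δ + 4 * W)) :=
        mul_le_mul_of_nonneg_left hmain (by positivity)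
    _ ≤ (X : ℝ) ^ (μ / 20) * ((2 * (1 + Real.log X)) * ((10 + 176 * C) * (X : ℝ) ^ (h - 9 * μ / 10))) := by
        apply mul_le_mul_of_nonneg_left _ (by positivity)
        apply mul_le_mul (by linarith) _ (by positivity) (by linarith)
        linarith
    _ = (2 * (10 + 176 * C)) * (1 + Real.log X) * ((X : ℝ) ^ (μ / 20) * (X : ℝ) ^ (h - 9 * μ / 10)) := by
        ring
    _ ≤ (X : ℝ) ^ (7 * μ / 20) * ((X : ℝ) ^ (μ / 20) * (X : ℝ) ^ (h - 9 * μ / 10)) :=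
        mul_le_mul_of_nonneg_right e2 (by positivity)
    _ = (X : ℝ) ^ (1 - θ - μ / 2) := by
        rw [← Real.rpow_add hXp, ← Real.rpow_add hXp, hh]
        congr 1
        ring

end Pool.Agent.X69.Dio
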