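import Pool.Agent.X69.Dio.Saw

/-!
Vinogradov's lemma on the sums of `min (Z / m, 1 / (2 ‖m α‖))`.
-/

set_option autoImplicit false

namespace Pool.Agent.X69.Dio

open Finset Filter
open Pool.Agent.Y957.VK (dz)

/-- `min (U, 1 / (2 ‖t‖))` -/
noncomputable def GG (U t : ℝ) : ℝ := if dz t = 0 then U else min U (1 / (2 * dz t))

lemma dz_nonneg (t : ℝ) : 0 ≤ dz t := abs_nonneg _

lemma GG_le (U t : ℝ) : GG U t ≤ U := by
  unfold GG
  split_ifs
  · exact le_rfl
  · exact min_le_left _ _

lemma GG_nonneg (U t : ℝ) (hU : 0 ≤ U) : 0 ≤ GG U t := by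
  unfold GG
  split_ifs
  · exact hU
  · have := dz_nonneg t
    exact le_min hU (by positivity)

lemma GG_mono (U V t : ℝ) (h : U ≤ V) : GG U t ≤ GG V t := by
  unfold GG
  split_ifs
  · exact h
  · exact min_le_min_right _ h

lemma GG_le_inv (U t : ℝ) (h : 0 < dz t) : GG U t ≤ 1 / (2 * dz t) := by
  unfold GG
  rw [if_neg h.ne']
  exact min_le_right _ _

/-- the rational approximation -/
structure Ap (α : ℝ) (a : ℤ) (q : ℕ) : Prop where
  two : 2 ≤ q
  cop : IsCoprime a (q : ℤ)
  app : |α - a / q| ≤ 1 / (q : ℝ) ^ 2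

lemma far {α : ℝ} {a : ℤ} {q : ℕ} (h : Ap α a q) (j k : ℤ) (hj : j ≠ 0) (hjq : 2 * |j| ≤ q) :
    1 / (2 * (q : ℝ)) ≤ |(j : ℝ) * α - k| := by
  have hq : (0 : ℝ) < q := by exact_mod_cast (by have := h.two; omega : 0 < q)
  by_contra hcon
  push Not at hcon
  have h1 : |(j : ℝ) * (α - a / q)| ≤ 1 / (2 * (q : ℝ)) := by
    rw [abs_mul]
    have h2 : (2 : ℝ) * |(j : ℝ)| ≤ q := by
      have : ((2 * |j| : ℤ) : ℝ) ≤ ((q : ℤ) : ℝ) := by exact_mod_cast hjq
      push_cast at this
      exact this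
    calc |(j : ℝ)| * |α - a / q| ≤ (q / 2) * (1 / (q : ℝ) ^ 2) := by
          apply mul_le_mul _ h.app (abs_nonneg _) (by positivity)
          linarith
      _ = _ := by field_simp
  have h3 : |((j * a - k * q : ℤ) : ℝ)| < 1 := by
    have h4 : ((j * a - k * q : ℤ) : ℝ) = q * (((j : ℝ) * α - k) - (j : ℝ) * (α - a / q)) := by
      push_cast
      field_simp
      ring
    rw [h4, abs_mul, abs_of_pos hq]
    have h5 := abs_sub ((j : ℝ) * α - k) ((j : ℝ) * (α - a / q))
    calc (q : ℝ) * |((j : ℝ) * α - k) - (j : ℝ) * (α - a / q)| ≤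
        q * (|(j : ℝ) * α - k| + |(j : ℝ) * (α - a / q)|) := mul_le_mul_of_nonneg_left h5 hq.le
      _ < q * (1 / (2 * (q : ℝ)) + 1 / (2 * (q : ℝ))) := by
          apply mul_lt_mul_of_pos_left _ hq
          linarith
      _ = 1 := by field_simp; norm_num
  have h6 : j * a - k * q = 0 := by
    have h7 : |j * a - k * q| < 1 := by exact_mod_cast h3
    exact Int.abs_lt_one_iff.1 h7
  have h8 : (q : ℤ) ∣ j * a := ⟨k, by linarith⟩
  have h9 : (q : ℤ) ∣ j := h.cop.symm.dvd_of_dvd_mul_right h8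
  have h10 := Int.le_of_dvd (abs_pos.2 hj) ((dvd_abs _ _).2 h9)
  have h11 : 0 < |j| := abs_pos.2 hj
  omega

/-- the sums over the cells -/
noncomputable def ff (q : ℕ) (U : ℝ) (c : ℕ) : ℝ := if c = 0 then U else if c < q then (q : ℝ) / c else 0

lemma ff_nonneg (q : ℕ) (U : ℝ) (hU : 0 ≤ U) (c : ℕ) : 0 ≤ ff q U c := by
  unfold ff
  split_ifs
  · exact hU
  · positivity
  · exact le_rfl

lemma ff_sum (q : ℕ) (hq : 2 ≤ q) (U : ℝ) :
    ∑ c ∈ range (2 * q), ff q U c ≤ U + q * (1 + Real.log q) := by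
  have h1 : ∑ c ∈ range (2 * q), ff q U c = ∑ c ∈ range q, ff q U c := by
    symm
    apply sum_subset
    · exact range_subset_range.2 (by omega)
    · intro c _ hc
      rw [mem_range] at hc
      unfold ff
      rw [if_neg (by omega), if_neg hc]
  rw [h1]
  obtain ⟨m, rfl⟩ : ∃ m, q = m + 1 := ⟨q - 1, by omega⟩
  rw [sum_range_succ']
  have h2 : ff (m + 1) U 0 = U := by
    unfold ff
    rw [if_pos rfl]
  rw [h2, add_comm]
  apply add_le_add le_rfl
  have h3 : ∑ c ∈ range m, ff (m + 1) U (c + 1) = ((m + 1 : ℕ) : ℝ) * (harmonic m : ℝ) := by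
    rw [harmonic]
    push_cast
    rw [mul_sum]
    apply sum_congr rfl
    intro c hc
    rw [mem_range] at hc
    unfold ff
    rw [if_neg (by omega), if_pos (by omega)]
    push_cast
    rw [div_eq_mul_inv]
  rw [h3]
  apply mul_le_mul_of_nonneg_left _ (by positivity)
  refine (harmonic_le_one_add_log m).trans ?_
  rcases Nat.eq_zero_or_pos m with h | h
  · subst h
    simp
  · have h4 : (0 : ℝ) < m := by exact_mod_cast h
    have := Real.log_le_log h4 (show (m : ℝ) ≤ ((m + 1 : ℕ) : ℝ) by push_cast; linarith)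
    linarith

/-- one block -/
theorem block {α : ℝ} {a : ℤ} {q : ℕ} (h : Ap α a q) (I : Finset ℕ) (hI : ∀ m ∈ I, ∀ m' ∈ I,
    2 * |(m : ℤ) - m'| ≤ q) (U : ℝ) (hU : 0 ≤ U) :
    ∑ m ∈ I, GG U (m * α) ≤ 2 * (U + q * (1 + Real.log q)) := by
  have hq2 := h.two
  have hq : (0 : ℝ) < q := by exact_mod_cast (by omega : 0 < q)
  set c : ℕ → ℕ := fun m => ⌊2 * (q : ℝ) * Int.fract ((m : ℝ) * α)⌋₊ with hc
  have hc1 : ∀ m : ℕ, (c m : ℝ) ≤ 2 * q * Int.fract ((m : ℝ) * α) := fun m =>
    Nat.floor_le (mul_nonneg (by positivity) (Int.fract_nonneg _))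
  have hc2 : ∀ m : ℕ, 2 * q * Int.fract ((m : ℝ) * α) < c m + 1 := fun m => Nat.lt_floor_add_one _
  have hc3 : ∀ m : ℕ, c m < 2 * q := by
    intro m
    have h1 : (c m : ℝ) < ((2 * q : ℕ) : ℝ) := by
      refine (hc1 m).trans_lt ?_
      have := Int.fract_lt_one ((m : ℝ) * α)
      push_cast
      nlinarith
    exact_mod_cast h1
  have hinj : Set.InjOn c (I : Set ℕ) := by
    intro m hm m' hm' he
    by_contra hne
    have h1 := far h ((m : ℤ) - m') (⌊(m : ℝ) * α⌋ - ⌊(m' : ℝ) * α⌋) (by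
      intro h0
      apply hne
      omega) (hI m hm m' hm')
    apply absurd h1 (not_le.2 _)
    have e1 : ((((m : ℤ) - m' : ℤ) : ℝ)) * α - ((⌊(m : ℝ) * α⌋ - ⌊(m' : ℝ) * α⌋ : ℤ) : ℝ) =
        Int.fract ((m : ℝ) * α) - Int.fract ((m' : ℝ) * α) := by
      unfold Int.fract
      push_cast
      ring
    rw [e1, abs_lt]
    have u1 := hc1 m
    have u2 := hc2 m
    have u3 := hc1 m'
    have u4 := hc2 m'
    rw [he] at u1 u2
    have hq' : (0 : ℝ) < 2 * q := by linarith
    constructor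
    · rw [neg_lt_sub_iff_lt_add, ← mul_lt_mul_iff_right₀ hq']
      rw [mul_add, mul_one_div_cancel hq'.ne']
      linarith
    · rw [sub_lt_iff_lt_add, ← mul_lt_mul_iff_right₀ hq']
      rw [mul_add, mul_one_div_cancel hq'.ne']
      linarith
  have hterm : ∀ m ∈ I, GG U (m * α) ≤ ff q U (c m) + ff q U (2 * q - 1 - c m) := by
    intro m _
    have v1 := ff_nonneg q U hU (c m)
    have v2 := ff_nonneg q U hU (2 * q - 1 - c m)
    have v3 := hc3 m
    by_cases h0 : c m = 0
    · have : ff q U (c m) = U := by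
        unfold ff
        rw [if_pos h0]
      linarith [GG_le U (m * α)]
    by_cases h1 : 2 * q - 1 - c m = 0
    · have : ff q U (2 * q - 1 - c m) = U := by
        unfold ff
        rw [if_pos h1]
      linarith [GG_le U (m * α)]
    -- the smaller one
    obtain ⟨e, he, he0, hed⟩ : ∃ e : ℕ, (q : ℝ) / e ≤ ff q U (c m) + ff q U (2 * q - 1 - c m) ∧
        0 < e ∧ (e : ℝ) / (2 * q) ≤ dz (m * α) := by
      have hdz : dz ((m : ℝ) * α) = min (Int.fract ((m : ℝ) * α)) (1 - Int.fract ((m : ℝ) * α)) :=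
        abs_sub_round_eq_min _
      have w1 : (c m : ℝ) / (2 * q) ≤ Int.fract ((m : ℝ) * α) := by
        rw [div_le_iff₀ (by linarith)]
        have := hc1 m
        linarith
      have w2 : ((2 * q - 1 - c m : ℕ) : ℝ) / (2 * q) ≤ 1 - Int.fract ((m : ℝ) * α) := by
        rw [div_le_iff₀ (by linarith)]
        have u5 := hc2 m
        have u6 : ((2 * q - 1 - c m : ℕ) : ℝ) = 2 * q - 1 - c m := by
          rw [Nat.cast_sub (by omega), Nat.cast_sub (by omega)]
          push_cast
          ring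
        rw [u6]
        nlinarith
      rcases le_or_gt (c m) (2 * q - 1 - c m) with hle | hgt
      · refine ⟨c m, ?_, by omega, ?_⟩
        · have : ff q U (c m) = (q : ℝ) / (c m : ℕ) := by
            unfold ff
            rw [if_neg h0, if_pos (by omega)]
          linarith
        · rw [hdz]
          refine le_min w1 (le_trans ?_ w2)
          apply div_le_div_of_nonneg_right _ (by positivity)
          exact_mod_cast hle
      · refine ⟨2 * q - 1 - c m, ?_, by omega, ?_⟩
        · have : ff q U (2 * q - 1 - c m) = (q : ℝ) / ((2 * q - 1 - c m : ℕ) : ℕ) := by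
            unfold ff
            rw [if_neg h1, if_pos (by omega)]
          linarith
        · rw [hdz]
          refine le_min (le_trans ?_ w1) w2
          apply div_le_div_of_nonneg_right _ (by positivity)
          exact_mod_cast hgt.le
    have he1 : (0 : ℝ) < e := by exact_mod_cast he0
    have hdp : 0 < dz ((m : ℝ) * α) := lt_of_lt_of_le (by positivity) hed
    refine (GG_le_inv U _ hdp).trans (le_trans ?_ he)
    rw [div_le_div_iff₀ (by positivity) he1]
    rw [div_le_iff₀ (by positivity)] at hed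
    linarith
  calc ∑ m ∈ I, GG U (m * α) ≤ ∑ m ∈ I, (ff q U (c m) + ff q U (2 * q - 1 - c m)) := sum_le_sum hterm
    _ = ∑ x ∈ I.image c, (ff q U x + ff q U (2 * q - 1 - x)) := by
        rw [sum_image hinj]
    _ ≤ ∑ x ∈ range (2 * q), (ff q U x + ff q U (2 * q - 1 - x)) := by
        apply sum_le_sum_of_subset_of_nonneg
        · intro x hx
          rw [mem_image] at hx
          obtain ⟨m, _, rfl⟩ := hx
          exact mem_range.2 (hc3 m)
        · intro x _ _
          exact add_nonneg (ff_nonneg q U hU _) (ff_nonneg q U hU _)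
    _ = 2 * ∑ x ∈ range (2 * q), ff q U x := by
        rw [sum_add_distrib, sum_range_reflect (fun x => ff q U x) (2 * q)]
        ring
    _ ≤ _ := mul_le_mul_of_nonneg_left (ff_sum q hq2 U) (by norm_num)

/-- **Vinogradov's lemma.** -/
theorem vin {α : ℝ} {a : ℤ} {q : ℕ} (h : Ap α a q) (M : ℕ) (hM : 1 ≤ M) (Z : ℝ) (hZ : 0 ≤ Z) :
    ∑ m ∈ Icc 1 M, GG (Z / m) (m * α) ≤
      (1 + Real.log q + Real.log M) * (8 * q + 6 * M + 6 * (Z / q)) := by
  have hq2 := h.two
  have hq : (0 : ℝ) < q := by exact_mod_cast (by omega : 0 < q)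
  have hqr : (2 : ℝ) ≤ q := by exact_mod_cast hq2
  have hMr : (1 : ℝ) ≤ M := by exact_mod_cast hM
  have hlq : 0 ≤ Real.log q := Real.log_nonneg (by linarith)
  have hlM : 0 ≤ Real.log M := Real.log_nonneg hMr
  obtain ⟨L, hL⟩ : ∃ L : ℕ, L = q / 2 := ⟨_, rfl⟩
  have hL1 : 1 ≤ L := by omega
  have hL2 : 2 * L ≤ q := by omega
  have hL3 : q ≤ 3 * L := by omega
  have hLr : (0 : ℝ) < L := by exact_mod_cast hL1
  have hL3r : (q : ℝ) ≤ 3 * L := by exact_mod_cast hL3
  set T := M / L with hT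
  have hTM : (T : ℝ) ≤ 3 * M / q := by
    have h1 : T * L ≤ M := Nat.div_mul_le_self M L
    have h2 : (T : ℝ) * L ≤ M := by exact_mod_cast h1
    rw [le_div_iff₀ hq]
    have h3 : (T : ℝ) * q ≤ T * (3 * L) := mul_le_mul_of_nonneg_left hL3r (Nat.cast_nonneg _)
    linarith
  have hTM' : T ≤ M := Nat.div_le_self M L
  have hmaps : ∀ m ∈ Icc 1 M, m / L ∈ range (T + 1) := by
    intro m hm
    rw [mem_Icc] at hm
    rw [mem_range, hT]
    have := Nat.div_le_div_right (c := L) hm.2
    omega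
  rw [← sum_fiberwise_of_maps_to hmaps]
  have hfib : ∀ t : ℕ, ∀ m ∈ (Icc 1 M).filter (fun m => m / L = t), ∀ m' ∈ (Icc 1 M).filter
      (fun m => m / L = t), 2 * |(m : ℤ) - m'| ≤ q := by
    intro t m hm m' hm'
    rw [mem_filter] at hm hm'
    have h1 := Nat.div_add_mod m L
    have h2 := Nat.div_add_mod m' L
    have h3 := Nat.mod_lt m hL1
    have h4 := Nat.mod_lt m' hL1
    rw [hm.2] at h1
    rw [hm'.2] at h2
    have h5 : |(m : ℤ) - m'| ≤ L := by
      rw [abs_le]
      constructor <;> omega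
    have h6 : (2 : ℤ) * L ≤ q := by exact_mod_cast hL2
    linarith
  have hblk : ∀ t ∈ range (T + 1), ∑ m ∈ (Icc 1 M).filter (fun m => m / L = t), GG (Z / m) (m * α) ≤
      2 * ((if t = 0 then (q : ℝ) else 3 * (Z / q) * (1 / t)) + q * (1 + Real.log q)) := by
    intro t _
    by_cases ht : t = 0
    · rw [if_pos ht]
      refine le_trans (sum_le_sum fun m hm => ?_) (block h _ (hfib t) q hq.le)
      rw [mem_filter, mem_Icc] at hm
      have hm1 : m < L := by
        have := hm.2
        rw [ht] at this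
        exact (Nat.div_eq_zero_iff_lt hL1).1 this
      have h1 := far h (m : ℤ) (round ((m : ℝ) * α)) (by omega) (by
        rw [abs_of_nonneg (by omega)]
        have h6 : (2 : ℤ) * L ≤ q := by exact_mod_cast hL2
        omega)
      have h2 : 1 / (2 * (q : ℝ)) ≤ dz ((m : ℝ) * α) := by
        unfold dz
        push_cast at h1
        exact h1
      have h3 : 0 < dz ((m : ℝ) * α) := lt_of_lt_of_le (by positivity) h2
      have h4 : 1 / (2 * dz ((m : ℝ) * α)) ≤ q := by
        rw [div_le_iff₀ (by positivity)]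
        rw [div_le_iff₀ (by positivity)] at h2
        linarith
      have h5 : GG (q : ℝ) ((m : ℝ) * α) = 1 / (2 * dz ((m : ℝ) * α)) := by
        unfold GG
        rw [if_neg h3.ne', min_eq_right h4]
      rw [h5]
      exact GG_le_inv _ _ h3
    · rw [if_neg ht]
      have ht0 : (0 : ℝ) < t := by exact_mod_cast Nat.pos_of_ne_zero ht
      refine le_trans (sum_le_sum fun m hm => ?_) (block h _ (hfib t) (3 * (Z / q) * (1 / t)) (by positivity))
      apply GG_mono
      rw [mem_filter, mem_Icc] at hm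
      have h1 : t * L ≤ m := by
        rw [← hm.2]
        exact Nat.div_mul_le_self m L
      have h2 : (t : ℝ) * L ≤ m := by exact_mod_cast h1
      have hm0 : (0 : ℝ) < m := lt_of_lt_of_le (by positivity) h2
      rw [mul_one_div, div_le_div_iff₀ hm0 ht0]
      have h3 : (t : ℝ) * q ≤ 3 * m := by
        have : (t : ℝ) * q ≤ t * (3 * L) := mul_le_mul_of_nonneg_left hL3r ht0.le
        linarith
      have h4 : Z * t * q ≤ Z * (3 * m) := by
        rw [mul_assoc]
        exact mul_le_mul_of_nonneg_left h3 hZ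
      calc Z * t = Z * t * q / q := by field_simp
        _ ≤ Z * (3 * m) / q := div_le_div_of_nonneg_right h4 hq.le
        _ = 3 * (Z / q) * m := by ring
  refine (sum_le_sum hblk).trans ?_
  rw [← mul_sum, sum_add_distrib, sum_const, nsmul_eq_mul, card_range]
  have h5 : ∑ t ∈ range (T + 1), (if t = 0 then (q : ℝ) else 3 * (Z / q) * (1 / t)) ≤
      q + 3 * (Z / q) * (1 + Real.log M) := by
    rw [sum_range_succ', if_pos rfl, add_comm]
    apply add_le_add le_rfl
    have h6 : ∑ t ∈ range T, (if t + 1 = 0 then (q : ℝ) else 3 * (Z / q) * (1 / ((t + 1 : ℕ) : ℝ))) =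
        3 * (Z / q) * (harmonic T : ℝ) := by
      rw [harmonic]
      push_cast
      rw [mul_sum]
      apply sum_congr rfl
      intro t _
      rw [one_div]
    rw [h6]
    apply mul_le_mul_of_nonneg_left _ (by positivity)
    refine (harmonic_le_one_add_log T).trans ?_
    rcases Nat.eq_zero_or_pos T with h | h
    · rw [h]
      simp only [Nat.cast_zero, Real.log_zero]
      linarith
    · have h4 : (0 : ℝ) < T := by exact_mod_cast h
      have := Real.log_le_log h4 (show (T : ℝ) ≤ M by exact_mod_cast hTM')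
      linarith
  have h7 : ((T + 1 : ℕ) : ℝ) * (q * (1 + Real.log q)) ≤ (3 * M + q) * (1 + Real.log q) := by
    push_cast
    have h8 : ((T : ℝ) + 1) * q ≤ 3 * M + q := by
      rw [le_div_iff₀ hq] at hTM
      linarith
    calc ((T : ℝ) + 1) * (q * (1 + Real.log q)) = (((T : ℝ) + 1) * q) * (1 + Real.log q) := by ring
      _ ≤ _ := mul_le_mul_of_nonneg_right h8 (by linarith)
  have hZq : 0 ≤ Z / q := by positivity
  have hM0 : (0 : ℝ) ≤ M := by linarith
  calc 2 * (∑ t ∈ range (T + 1), (if t = 0 then (q : ℝ) else 3 * (Z / q) * (1 / t)) +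
        ((T + 1 : ℕ) : ℝ) * (q * (1 + Real.log q))) ≤
      2 * ((q + 3 * (Z / q) * (1 + Real.log M)) + (3 * M + q) * (1 + Real.log q)) := by linarith
    _ ≤ (1 + Real.log q + Real.log M) * (8 * q + 6 * M + 6 * (Z / q)) := by
        nlinarith [mul_nonneg hlq hZq, mul_nonneg hlM hM0, mul_nonneg hlM hq.le, mul_nonneg hlq hq.le]

end Pool.Agent.X69.Dio
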